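import Pool.Agent.Lib.MP_5ea425_an.Sharp.Orth
import Pool.Agent.Lib.MP_5ea425_an.All.Crit

/-!
In a Hilbert space `2 (k + α)` coordinates suffice for a shear of class `C^(k, α)` that moves a set
of good points off itself.
-/

set_option autoImplicit false

open MeasureTheory Filter Topology
open scoped RealInnerProductSpace

namespace Pool.Agent.Lib.MP_5ea425_an.Sharp

open All

variable {H : Type*} [NormedAddCommGroup H] [InnerProductSpace ℝ H] [CompleteSpace H] {n k : ℕ}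

theorem exists_shear {e : ℕ × ℕ × (Fin n → ℤ) → H} (he : Orthonormal ℝ e) (k : ℕ) {α : ℝ}
    (hα : 0 ≤ α) (hα1 : α ≤ 1) (β : ContDiffBump (0 : Fin n → ℝ)) (hβ : β.rOut < 1 / 2)
    (π : H →L[ℝ] (Fin n → ℝ)) (hπ : ∀ i, π (e i) = 0) {δ : ℝ} (hδ : 0 < δ) :
    ∃ (u : (Fin n → ℝ) → H) (γ : ℝ), 0 < γ ∧ ContDiff ℝ k u ∧
      (∀ i ≤ k, ∀ c, ‖iteratedFDeriv ℝ i u c‖ ≤ δ) ∧
      (∀ c c', ‖iteratedFDeriv ℝ k u c - iteratedFDeriv ℝ k u c'‖ ≤ δ * ‖c - c'‖ ^ α) ∧
      (∀ c, π (u c) = 0) ∧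
      ∀ l, ∀ m < 16 ^ l, ∀ j ∈ box n (8 ^ m * l), ∀ c, ⟪e (l, m, j), u c⟫ =
        β ((8 : ℝ) ^ m • (c - fun _ => 1 / (2 * 8 ^ m)) - cst j) *
          (γ * ((1 / 8) ^ l * ((8 ^ m : ℝ)⁻¹ ^ k * (8 ^ m : ℝ)⁻¹ ^ α))) := by
  classical
  obtain ⟨M, hM0, hM⟩ := bump_bound β (k + 1)
  obtain ⟨a, ha⟩ : ∃ a : ℕ → ℕ → ℝ, ∀ l m, a l m =
    δ / 4 / M * ((1 / 8) ^ l * ((8 ^ m : ℝ)⁻¹ ^ k * (8 ^ m : ℝ)⁻¹ ^ α)) := ⟨_, fun _ _ => rfl⟩
  have ha0 : ∀ l m, 0 < a l m := fun l m => by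
    rw [ha]
    positivity
  obtain ⟨W, hW⟩ : ∃ W : ℕ → ℕ → (Fin n → ℝ) → H, ∀ l m, W l m = fun c =>
    ∑ j ∈ box n (8 ^ m * l), β ((8 : ℝ) ^ m • (c - fun _ => 1 / (2 * 8 ^ m)) - cst j) •
      a l m • e (l, m, j) := ⟨_, fun _ _ => rfl⟩
  have hl := fun (k' : ℕ) (hk : k' ≤ k + 1) l m => level_bound β hβ hM0
    (fun i (hi : i ≤ k') => hM i (hi.trans hk)) (L := 8 ^ m) (one_le_pow₀ (by norm_num))
    (ha0 l m).le (box n (8 ^ m * l)) (fun j => a l m • e (l, m, j)) fun j _ => by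
      rw [norm_smul, he.1, mul_one, Real.norm_of_nonneg (ha0 l m).le]
  have h0 : ∀ l m, ContDiff ℝ (k + 1 : ℕ) (W l m) := fun l m => by
    rw [hW]
    exact (hl _ le_rfl l m).1.comp (contDiff_id.sub contDiff_const)
  have h1 : ∀ l m, ∀ i ≤ k, ContDiff ℝ i (W l m) := fun l m i hi =>
    (h0 l m).of_le (by exact_mod_cast hi.trans k.le_succ)
  have g1 : ∀ k' ≤ k + 1, ∀ l m, ∀ i ≤ k', ∀ c, ‖iteratedFDeriv ℝ i (W l m) c‖ ≤
      a l m * M * (8 ^ m) ^ k' := fun k' hk l m i hi c => by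
    rw [hW, iteratedFDeriv_comp_sub (f := fun c => ∑ j ∈ box n (8 ^ m * l),
      β ((8 : ℝ) ^ m • c - cst j) • a l m • e (l, m, j))]
    exact (hl k' hk l m).2 i hi _
  have g2 : ∀ l m, a l m * M * (8 ^ m) ^ k = δ / 4 * (1 / 8) ^ l * (8 ^ m : ℝ)⁻¹ ^ α :=
    fun l m => by
      rw [ha, inv_pow]
      field_simp
  have h2 : ∀ l m, ∀ i ≤ k, ∀ c, ‖iteratedFDeriv ℝ i (W l m) c‖ ≤ δ / 2 * (1 / 8) ^ l :=
    fun l m i hi c => by
      refine ((g1 k k.le_succ l m i hi c).trans_eq (g2 l m)).trans ((mul_le_of_le_one_right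
        (by positivity) (Real.rpow_le_one (by positivity) (inv_le_one_of_one_le₀
          (one_le_pow₀ (by norm_num))) hα)).trans ?_)
      exact mul_le_mul_of_nonneg_right (by linarith) (by positivity)
  have g3 := fun l m => interp (h0 l m) (A := δ / 4 * (1 / 8) ^ l) (L := 8 ^ m) (by positivity)
    (by positivity) hα hα1 (fun c => (g1 k k.le_succ l m k le_rfl c).trans_eq (g2 l m))
    fun c => (g1 _ le_rfl l m _ le_rfl c).trans_eq (by rw [pow_succ, ← mul_assoc, g2])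
  have h3 : ∀ l m j l' m' c, (l, m) ≠ (l', m') → ⟪e (l, m, j), W l' m' c⟫ = 0 :=
    fun l m j l' m' c h => by
      rw [hW, inner_sum]
      refine Finset.sum_eq_zero fun j' _ => ?_
      rw [inner_smul_right, inner_smul_right, he.2 fun h' => h (by
        rw [Prod.mk.injEq, Prod.mk.injEq] at h'
        rw [h'.1, h'.2.1]), mul_zero, mul_zero]
  have g4 : ∀ l m m', m ≠ m' → ∀ c c', ⟪W l m c, W l m' c'⟫ = 0 := fun l m m' h c c' => by
    rw [hW, sum_inner]
    refine Finset.sum_eq_zero fun j _ => ?_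
    rw [real_inner_smul_left, real_inner_smul_left, h3 _ _ _ _ _ _ fun h' =>
      h (congrArg Prod.snd h'), mul_zero, mul_zero]
  have g5 : ∀ l : ℕ, ((Finset.range (16 ^ l)).card : ℝ) = (4 ^ l) ^ 2 := fun l => by
    rw [Finset.card_range, ← pow_mul, mul_comm l, pow_mul]
    norm_num
  have g6 : ∀ l : ℕ, (4 : ℝ) ^ l * (1 / 8) ^ l = (1 / 2) ^ l := fun l => by
    rw [← mul_pow]
    norm_num
  have h4 : ∀ (i l : ℕ) c, (i : ℕ∞) ≤ k → ‖iteratedFDeriv ℝ i
      (fun c => ∑ m ∈ Finset.range (16 ^ l), W l m c) c‖ ≤ δ / 2 * (1 / 2) ^ l :=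
    fun i l c hi => by
      have hi' : i ≤ k := by exact_mod_cast hi
      refine (orth_bound _ (fun m => h1 l m i hi') (g4 l) (by positivity) (by positivity) (g5 l) c
        fun m => h2 l m i hi' c).trans (le_of_eq ?_)
      rw [mul_left_comm, g6]
  have h5 : ∀ l, ContDiff ℝ k fun c => ∑ m ∈ Finset.range (16 ^ l), W l m c := fun l =>
    ContDiff.sum fun m _ => h1 l m k le_rfl
  have g7 : ∀ l c c', ‖iteratedFDeriv ℝ k (fun c => ∑ m ∈ Finset.range (16 ^ l), W l m c) c -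
      iteratedFDeriv ℝ k (fun c => ∑ m ∈ Finset.range (16 ^ l), W l m c) c'‖ ≤
        δ / 2 * ‖c - c'‖ ^ α * (1 / 2) ^ l := fun l c c' => by
    have a1 : ∀ {f : (Fin n → ℝ) → H}, ContDiff ℝ k f →
        iteratedFDeriv ℝ k (fun x => f x - f (x - (c - c'))) c =
          iteratedFDeriv ℝ k f c - iteratedFDeriv ℝ k f c' := fun {f} hf => by
      refine (iteratedFDeriv_sub_apply hf.contDiffAt
        (hf.comp (contDiff_id.sub contDiff_const)).contDiffAt).trans ?_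
      exact congrArg _ ((iteratedFDeriv_comp_sub _ _ _).trans (by rw [sub_sub_cancel]))
    have a2 := orth_bound (W := fun m x => W l m x - W l m (x - (c - c'))) _
      (fun m => (h1 l m k le_rfl).sub ((h1 l m k le_rfl).comp (contDiff_id.sub contDiff_const)))
      (fun m m' h x x' => by simp only [inner_sub_left, inner_sub_right, g4 l m m' h, sub_zero])
      (b := 2 * (δ / 4 * (1 / 8) ^ l) * ‖c - c'‖ ^ α) (by positivity) (by positivity) (g5 l) c
      fun m => by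
        rw [a1 (h1 l m k le_rfl)]
        exact g3 l m c c'
    simp only [Finset.sum_sub_distrib] at a2
    rw [a1 (h5 l)] at a2
    refine a2.trans (le_of_eq ?_)
    rw [← g6]
    ring
  have hs : Summable fun l : ℕ => δ / 2 * (1 / 2 : ℝ) ^ l := summable_geometric_two.mul_left _
  have h6 : ∀ c, Summable fun l => ∑ m ∈ Finset.range (16 ^ l), W l m c := fun c =>
    Summable.of_norm_bounded hs fun l => by
      have := h4 0 l c (by simp)
      rwa [norm_iteratedFDeriv_zero] at this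
  refine ⟨fun c => ∑' l, ∑ m ∈ Finset.range (16 ^ l), W l m c, δ / 4 / M, by positivity,
    contDiff_tsum (N := k) h5 (fun _ _ => hs) h4, fun i hi c => ?_, fun c c' => ?_, fun c => ?_,
    fun l m hm j hj c => ?_⟩
  · rw [iteratedFDeriv_tsum_apply (N := k) h5 (fun _ _ => hs) h4 (by exact_mod_cast hi)]
    refine (tsum_of_norm_bounded (hasSum_geometric_two.mul_left (δ / 2))
      fun m => h4 i m c (by exact_mod_cast hi)).trans (le_of_eq (by ring))
  · rw [iteratedFDeriv_tsum_apply (N := k) h5 (fun _ _ => hs) h4 le_rfl,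
      iteratedFDeriv_tsum_apply (N := k) h5 (fun _ _ => hs) h4 le_rfl,
      ← (Summable.of_norm_bounded hs fun l => h4 k l c le_rfl).tsum_sub
        (Summable.of_norm_bounded hs fun l => h4 k l c' le_rfl)]
    refine (tsum_of_norm_bounded (hasSum_geometric_two.mul_left (δ / 2 * ‖c - c'‖ ^ α))
      fun l => g7 l c c').trans (le_of_eq (by ring))
  · rw [π.map_tsum (h6 c)]
    refine (tsum_congr fun l => ?_).trans tsum_zero
    simp only [hW, map_sum, map_smul, hπ, smul_zero, Finset.sum_const_zero]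
  · refine ((innerSL ℝ (e (l, m, j))).map_tsum (h6 c)).trans ?_
    simp only [innerSL_apply_apply, inner_sum]
    rw [tsum_eq_single l fun l' h => Finset.sum_eq_zero fun m' _ => h3 _ _ _ _ _ _ fun h' =>
        h (congrArg Prod.fst h').symm,
      Finset.sum_eq_single_of_mem m (Finset.mem_range.2 hm) fun m' _ h => h3 _ _ _ _ _ _ fun h' =>
        h (congrArg Prod.snd h').symm, hW, ← ha]
    simp only [smul_smul]
    exact he.comp (fun j : Fin n → ℤ => (l, m, j))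
      ((Prod.mk_right_injective l).comp (Prod.mk_right_injective m)) |>.inner_right_sum _ hj

theorem core [MeasurableSpace H] [BorelSpace H] (hH : ¬ FiniteDimensional ℝ H) {α : ℝ}
    (hα : 0 ≤ α) (hα1 : α ≤ 1) (hn0 : 0 < n) (hn : 2 * (k + α) ≤ n) (π : H →L[ℝ] (Fin n → ℝ))
    {δ : ℝ} (hδ : 0 < δ) :
    ∃ (u : (Fin n → ℝ) → H) (G : Set H), ContDiff ℝ k u ∧
      (∀ i ≤ k, ∀ c, ‖iteratedFDeriv ℝ i u c‖ ≤ δ) ∧
      (∀ c c', ‖iteratedFDeriv ℝ k u c - iteratedFDeriv ℝ k u c'‖ ≤ δ * ‖c - c'‖ ^ α) ∧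
      (∀ c, π (u c) = 0) ∧ MeasurableSet G ∧
      (∀ (y : H) (z : Fin n → H), ∀ᵐ c : Fin n → ℝ, ∀ t : Fin n → ℝ,
        π (y + ∑ r, t r • z r) = c → y + ∑ r, t r • z r ∈ G) ∧ ∀ x ∈ G, x + u (π x) ∉ G := by
  obtain ⟨e, he, hπ⟩ := exists_on hH π (ℕ × ℕ × (Fin n → ℤ))
  let β : ContDiffBump (0 : Fin n → ℝ) := ⟨1 / 8, 3 / 8, by norm_num, by norm_num⟩
  obtain ⟨u, γ, hγ, h1, h2, h2', h3, h4⟩ :=
    exists_shear he k hα hα1 β (by norm_num [β]) π hπ hδ
  obtain ⟨ρ, hρ⟩ : ∃ ρ : (Fin n → Fin 8) → ℝ, ∀ d, ρ d =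
    (if d = fun _ => 4 then 1 else 0) - if d = fun _ => 0 then 1 else 0 := ⟨_, fun _ => rfl⟩
  obtain ⟨S, hS⟩ : ∃ S : ℕ → (Fin n → ℝ) → H → ℝ, ∀ l c f, S l c f =
    ∑ m ∈ Finset.range (16 ^ l), ρ (dig m c) * (⟪e (l, m, fl m c), f⟫ /
      ((1 / 8) ^ l * ((8 ^ m : ℝ)⁻¹ ^ k * (8 ^ m : ℝ)⁻¹ ^ α) * 16 ^ l)) := ⟨_, fun _ _ _ => rfl⟩
  obtain ⟨F, hF⟩ : ∃ F : ℕ → (Fin n → ℝ) → ℝ, ∀ l c, F l c =
    (∑ m ∈ Finset.range (16 ^ l), if dig m c = fun _ => 4 then (1 : ℝ) else 0) / 16 ^ l :=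
    ⟨_, fun _ _ => rfl⟩
  have s1 : ∀ l c f g, S l c (f + g) = S l c f + S l c g := fun l c f g => by
    simp only [hS, inner_add_right, add_div, mul_add, Finset.sum_add_distrib]
  have s2 : ∀ l c (t : Fin n → ℝ) (z : Fin n → H), S l c (∑ r, t r • z r) =
      ∑ r, t r * S l c (z r) := fun l c t z => by
    simp only [hS, inner_sum, inner_smul_right, Finset.sum_div, Finset.mul_sum]
    rw [Finset.sum_comm]
    exact Finset.sum_congr rfl fun r _ => Finset.sum_congr rfl fun m _ => by ring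
  have s3 : ∀ f, ∀ᵐ c : Fin n → ℝ, Tendsto (fun l => S l c f) atTop (𝓝 0) := fun f => by
    simp only [hS]
    refine ae_test (b := fun m => (8 ^ m : ℝ)⁻¹ ^ k * (8 ^ m : ℝ)⁻¹ ^ α) (fun m => by positivity)
      (fun m => ?_) (by simp [hρ]) (fun d => ?_) he f
    · rw [← Real.rpow_natCast _ k, ← Real.rpow_add (by positivity),
        ← Real.rpow_mul_natCast (by positivity), ← pow_mul, mul_comm n, pow_mul, one_div, inv_pow,
        ← Real.rpow_natCast _ n]
      refine Real.rpow_le_rpow_of_exponent_ge (by positivity)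
        (inv_le_one_of_one_le₀ (one_le_pow₀ (by norm_num))) ?_
      push_cast
      linarith
    · rw [hρ]
      split_ifs <;> norm_num
  have s4 : ∀ (l : ℕ) c, ‖c‖ ≤ l → S l c (u c) = γ * F l c := fun l c hc => by
    rw [hS, hF, Finset.sum_div, Finset.mul_sum]
    refine Finset.sum_congr rfl fun m hm => ?_
    rw [h4 l m (Finset.mem_range.1 hm) _ (fl_mem hc m), ← cell hn0 β rfl rfl m c, ← hρ]
    field_simp
  have hm := π.continuous.measurable
  refine ⟨u, {x | Tendsto (fun l => S l (π x) x) atTop (𝓝 0)} ∩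
    {x | Tendsto (fun l => F l (π x)) atTop (𝓝 ((1 / 8) ^ n))}, h1, h2, h2', h3,
    (measurableSet_tendsto _ fun l => ?_).inter (measurableSet_tendsto _ fun l => ?_),
    fun y z => ?_, fun x hx hx' => ?_⟩
  · simp only [hS]
    refine Finset.measurable_fun_sum _ fun m _ => (((measurable_of_countable ρ).comp
      (measurable_dig m)).comp hm).fun_mul (Measurable.div_const ?_ _)
    exact (measurable_from_prod_countable_right (f := fun p : (Fin n → ℤ) × H => ⟪e (l, m, p.1), p.2⟫)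
      fun j => (innerSL ℝ (e (l, m, j))).continuous.measurable).comp
        (((measurable_fl m).comp hm).prodMk measurable_id)
  · simp only [hF]
    exact (Finset.measurable_fun_sum _ fun m _ => ((measurable_of_countable
      fun d : Fin n → Fin 8 => if d = fun _ => 4 then (1 : ℝ) else 0).comp
        (measurable_dig m)).comp hm).div_const _
  · filter_upwards [s3 y, ae_all_iff.2 fun r => s3 (z r), ae_freq (n := n) fun _ => 4]
      with c b1 b2 b3 t ht
    refine ⟨?_, ?_⟩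
    · simp only [Set.mem_setOf_eq, ht, s1, s2]
      simpa using b1.add (tendsto_finsetSum Finset.univ fun r _ => (b2 r).const_mul (t r))
    · simp only [Set.mem_setOf_eq, ht, hF]
      exact b3
  · have b1 := hx'.1
    simp only [Set.mem_setOf_eq, map_add, h3, add_zero, s1] at b1
    have b2 := (b1.sub hx.1).congr' (f₂ := fun l => γ * F l (π x)) (by
      filter_upwards [tendsto_natCast_atTop_atTop.eventually_ge_atTop ‖π x‖] with l hl
      rw [add_sub_cancel_left, s4 l _ hl])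
    have b3 := tendsto_nhds_unique b2 (hx.2.const_mul γ)
    rw [sub_zero] at b3
    exact absurd b3 (by positivity : 0 < γ * (1 / 8 : ℝ) ^ n).ne

theorem pos [MeasurableSpace H] [BorelSpace H] (hH : ¬ FiniteDimensional ℝ H) {α : ℝ}
    (hα : 0 ≤ α) (hα1 : α ≤ 1) (hn0 : 0 < n) (hn : 2 * (k + α) ≤ n) (π : H →L[ℝ] (Fin n → ℝ))
    (hπ : Function.Surjective π) {δ : ℝ} (hδ : 0 < δ) :
    ∃ (u : (Fin n → ℝ) → H) (A : Set H), ContDiff ℝ k u ∧
      (∀ i ≤ k, ∀ c, ‖iteratedFDeriv ℝ i u c‖ ≤ δ) ∧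
      (∀ c c', ‖iteratedFDeriv ℝ k u c - iteratedFDeriv ℝ k u c'‖ ≤ δ * ‖c - c'‖ ^ α) ∧
      (∀ c, π (u c) = 0) ∧ AronszajnNull A ∧ AronszajnNull ((fun x => x - u (π x)) ⁻¹' A)ᶜ := by
  obtain ⟨u, G, h1, h2, h2', h3, h4, h5, h6⟩ := core hH hα hα1 hn0 hn π hδ
  refine ⟨u, Gᶜ, h1, h2, h2', h3, null_of_planes π hπ h4.compl fun y z => ?_, ?_⟩
  · filter_upwards [h5 y z] with c hc t ht
    exact not_not.2 (hc t ht)
  · rw [Set.preimage_compl, compl_compl]
    refine null_of_planes π hπ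
      ((continuous_id.sub (h1.continuous.comp π.continuous)).measurable h4) fun y z => ?_
    filter_upwards [h5 y z] with c hc t ht h7
    refine h6 _ h7 ?_
    rw [map_sub, h3, sub_zero, sub_add_cancel]
    exact hc t ht

end Pool.Agent.Lib.MP_5ea425_an.Sharp
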