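import Mathlib

/-!
Square summable shifts leave the class of null sets of a product of standard Gaussian laws
invariant.
-/

set_option autoImplicit false

open MeasureTheory ProbabilityTheory Filter Topology
open scoped ENNReal

namespace Pool.Agent.Lib.MP_5ea425_an.Sharp

theorem cs {α : Type*} [MeasurableSpace α] (μ : Measure α) {f g : α → ℝ≥0∞} (hf : Measurable f)
    (hg : Measurable g) :
    (∫⁻ a, f a * g a ∂μ) ^ 2 ≤ (∫⁻ a, f a ^ 2 ∂μ) * ∫⁻ a, g a ^ 2 ∂μ := by
  have h1 := pow_le_pow_left' (ENNReal.lintegral_mul_le_Lp_mul_Lq μ Real.HolderConjugate.two_two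
    hf.aemeasurable hg.aemeasurable) 2
  have h2 : ∀ x : ℝ≥0∞, (x ^ (1 / 2 : ℝ)) ^ 2 = x := fun x => by
    rw [← ENNReal.rpow_two, ← ENNReal.rpow_mul]
    norm_num
  simpa only [mul_pow, h2, ENNReal.rpow_two, Pi.mul_apply] using h1

theorem dom_one (h : ℝ) {f : ℝ → ℝ≥0∞} (hf : Measurable f) :
    (∫⁻ x, f x ∂gaussianReal h 1) ^ 2 ≤
      ENNReal.ofReal (Real.exp (h ^ 2)) * ∫⁻ x, f x ^ 2 ∂gaussianReal 0 1 := by
  have hρ : Measurable fun x : ℝ => ENNReal.ofReal (Real.exp (h * x - h ^ 2 / 2)) := by fun_prop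
  have h1 : ∫⁻ x, f x ∂gaussianReal h 1 =
      ∫⁻ x, ENNReal.ofReal (Real.exp (h * x - h ^ 2 / 2)) * f x ∂gaussianReal 0 1 := by
    rw [gaussianReal_of_var_ne_zero _ one_ne_zero, gaussianReal_of_var_ne_zero _ one_ne_zero,
      lintegral_withDensity_eq_lintegral_mul _ (measurable_gaussianPDF _ _) hf,
      lintegral_withDensity_eq_lintegral_mul _ (measurable_gaussianPDF _ _) (hρ.fun_mul hf)]
    refine lintegral_congr fun x => ?_
    simp only [Pi.mul_apply, gaussianPDF]
    rw [← mul_assoc, ← ENNReal.ofReal_mul (gaussianPDFReal_nonneg _ _ _)]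
    congr 2
    simp only [gaussianPDFReal]
    rw [mul_assoc _ (Real.exp _), ← Real.exp_add]
    congr 2
    push_cast
    ring
  have h2 : ∫⁻ x, ENNReal.ofReal (Real.exp (h * x - h ^ 2 / 2)) ^ 2 ∂gaussianReal 0 1 =
      ENNReal.ofReal (Real.exp (h ^ 2)) := by
    rw [gaussianReal_of_var_ne_zero _ one_ne_zero,
      lintegral_withDensity_eq_lintegral_mul _ (measurable_gaussianPDF _ _) (hρ.pow_const 2),
      ← mul_one (ENNReal.ofReal (Real.exp (h ^ 2))),
      ← lintegral_gaussianPDF_eq_one (2 * h) (v := 1) one_ne_zero,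
      ← lintegral_const_mul _ (measurable_gaussianPDF _ _)]
    refine lintegral_congr fun x => ?_
    simp only [Pi.mul_apply, gaussianPDF]
    rw [← ENNReal.ofReal_pow (Real.exp_pos _).le,
      ← ENNReal.ofReal_mul (gaussianPDFReal_nonneg _ _ _), ← ENNReal.ofReal_mul (Real.exp_pos _).le]
    congr 1
    simp only [gaussianPDFReal]
    rw [mul_left_comm (Real.exp _), mul_assoc _ (Real.exp _), sq (Real.exp _), ← Real.exp_add,
      ← Real.exp_add, ← Real.exp_add]
    congr 2
    push_cast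
    ring
  rw [h1, ← h2]
  exact cs _ hρ hf

theorem dom_fin {ι : Type*} [DecidableEq ι] (h : ι → ℝ) {f : (ι → ℝ) → ℝ≥0∞} (hf : Measurable f)
    (s : Finset ι) : ∀ x, ((∫⋯∫⁻_s, f ∂fun i => gaussianReal (h i) 1) x) ^ 2 ≤
      ENNReal.ofReal (Real.exp (∑ i ∈ s, h i ^ 2)) *
        (∫⋯∫⁻_s, (fun y => f y ^ 2) ∂fun _ => gaussianReal 0 1) x := by
  induction s using Finset.induction_on with
  | empty => simp
  | insert i s hi ih =>
    intro x
    rw [lmarginal_insert _ hf hi, lmarginal_insert _ (hf.pow_const 2) hi, Finset.sum_insert hi,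
      Real.exp_add, ENNReal.ofReal_mul (Real.exp_pos _).le, mul_assoc,
      ← lintegral_const_mul' _ _ ENNReal.ofReal_ne_top]
    exact (dom_one (h i) ((hf.lmarginal _).comp (measurable_update x))).trans
      (mul_le_mul_right (lintegral_mono fun y => ih _) _)

theorem dom_cyl {ι : Type*} {h : ι → ℝ} (hh : Summable fun i => h i ^ 2) {C : Set (ι → ℝ)}
    (hC : C ∈ measurableCylinders fun _ : ι => ℝ) :
    Measure.infinitePi (fun i => gaussianReal (h i) 1) C ^ 2 ≤
      ENNReal.ofReal (Real.exp (∑' i, h i ^ 2)) *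
        Measure.infinitePi (fun _ => gaussianReal 0 1) C := by
  classical
  obtain ⟨s, S, hS, rfl⟩ := (mem_measurableCylinders _).1 hC
  rw [Measure.infinitePi_cylinder _ hS, Measure.infinitePi_cylinder _ hS]
  have h1 := dom_fin (fun i : s => h i) (f := S.indicator 1) (measurable_one.indicator hS)
    Finset.univ 0
  have h2 : (fun y => S.indicator (1 : (s → ℝ) → ℝ≥0∞) y ^ 2) = S.indicator 1 := by
    funext y
    by_cases hy : y ∈ S <;> simp [hy]
  rw [h2, ← lintegral_eq_lmarginal_univ, ← lintegral_eq_lmarginal_univ, lintegral_indicator_one hS,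
    lintegral_indicator_one hS, Finset.sum_coe_sort s fun i => h i ^ 2] at h1
  exact h1.trans (mul_le_mul_left (ENNReal.ofReal_le_ofReal (Real.exp_le_exp.2
    (hh.sum_le_tsum s fun i _ => sq_nonneg _))) _)

theorem shift_qmp {ι : Type*} {h : ι → ℝ} (hh : Summable fun i => h i ^ 2) :
    Measure.QuasiMeasurePreserving (fun ω : ι → ℝ => ω + h)
      (Measure.infinitePi fun _ => gaussianReal 0 1)
      (Measure.infinitePi fun _ => gaussianReal 0 1) := by
  refine ⟨by fun_prop, Measure.AbsolutelyContinuous.mk fun S hS h0 => ?_⟩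
  have h1 := Measure.infinitePi_map_pi (fun _ : ι => gaussianReal 0 1)
    (f := fun i x => x + h i) fun i => by fun_prop
  simp only [gaussianReal_map_add_const, zero_add] at h1
  rw [show (fun ω : ι → ℝ => ω + h) = fun x i => x i + h i from rfl, h1]
  generalize hc : ENNReal.ofReal (Real.exp (∑' i, h i ^ 2)) = c
  have hc' : c ≠ ⊤ := hc ▸ ENNReal.ofReal_ne_top
  have h2 : ∀ ε : ℝ≥0∞, 0 < ε → (Measure.infinitePi (fun i => gaussianReal (h i) 1) S - ε) ^ 2 ≤
      c * ε := fun ε hε => by
    obtain ⟨C, a1, a2⟩ := exists_measure_symmDiff_lt_of_generateFrom_isSetRing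
      (μ := Measure.infinitePi (fun _ : ι => gaussianReal 0 1) +
        Measure.infinitePi (fun i => gaussianReal (h i) 1))
      isSetRing_measurableCylinders ⟨{Set.univ}, Set.countable_singleton _,
        Set.singleton_subset_iff.2 (univ_mem_measurableCylinders _), by simp⟩
      generateFrom_measurableCylinders.symm hS hε
    rw [Measure.add_apply] at a2
    have a3 : Measure.infinitePi (fun _ : ι => gaussianReal 0 1) C ≤ ε :=
      ((measure_mono (t := symmDiff C S ∪ S) fun x hx => by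
        by_cases h : x ∈ S
        exacts [Or.inr h, Or.inl (Or.inl ⟨hx, h⟩)]).trans (measure_union_le _ _)).trans (by
          rw [h0, add_zero]
          exact le_self_add.trans a2.le)
    have a4 : Measure.infinitePi (fun i => gaussianReal (h i) 1) S ≤
        Measure.infinitePi (fun i => gaussianReal (h i) 1) C + ε :=
      ((measure_mono (t := C ∪ symmDiff C S) fun x hx => by
        by_cases h : x ∈ C
        exacts [Or.inl h, Or.inr (Or.inr ⟨hx, h⟩)]).trans (measure_union_le _ _)).trans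
          (add_le_add_right (le_add_self.trans a2.le) _)
    refine (pow_le_pow_left' (tsub_le_iff_right.2 a4) 2).trans ((dom_cyl hh a1).trans ?_)
    rw [hc]
    exact mul_le_mul_right a3 _
  generalize Measure.infinitePi (fun i => gaussianReal (h i) 1) S = q at h2
  have h3 : Tendsto (fun ε : ℝ≥0∞ => (q - ε) ^ 2) (𝓝[>] 0) (𝓝 ((q - 0) ^ 2)) :=
    (ENNReal.Tendsto.pow (ENNReal.Tendsto.sub tendsto_const_nhds tendsto_id
      (Or.inr ENNReal.zero_ne_top))).mono_left nhdsWithin_le_nhds
  have h4 : Tendsto (fun ε : ℝ≥0∞ => c * ε) (𝓝[>] 0) (𝓝 (c * 0)) :=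
    (ENNReal.Tendsto.const_mul tendsto_id (Or.inr hc')).mono_left nhdsWithin_le_nhds
  have h5 := le_of_tendsto_of_tendsto h3 h4 (eventually_nhdsWithin_of_forall h2)
  simpa using h5

end Pool.Agent.Lib.MP_5ea425_an.Sharp
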