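import Pool.Agent.Lib.MP_5ea425_an.Sharp.CM
import Pool.Agent.Lib.MP_5ea425_an.All.Level

/-!
A Gaussian law on a Hilbert space built from a sequence of finite-dimensional subspaces, with the
shifts that preserve its null sets.
-/

set_option autoImplicit false

open MeasureTheory ProbabilityTheory Filter Topology Module
open scoped RealInnerProductSpace

namespace Pool.Agent.Lib.MP_5ea425_an.Sharp

theorem norm_sq_sum {K ι : Type*} [NormedAddCommGroup K] [InnerProductSpace ℝ K] {e : ι → K}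
    (he : Orthonormal ℝ e) (a : ι → ℝ) (s : Finset ι) :
    ‖∑ i ∈ s, a i • e i‖ ^ 2 = ∑ i ∈ s, a i ^ 2 := by
  rw [← real_inner_self_eq_norm_sq, he.inner_sum]
  simp [sq]

theorem gauss {K : Type*} [NormedAddCommGroup K] [InnerProductSpace ℝ K] [CompleteSpace K]
    [SecondCountableTopology K] [MeasurableSpace K] [BorelSpace K] (U : ℕ → Submodule ℝ K)
    [∀ m, FiniteDimensional ℝ (U m)] (l : ℕ → ℝ) (hl : ∀ m, 0 < l m) {E τ : ℝ}
    (hτ : 0 < τ) (hτ1 : τ < 1) (hE : ∀ m, l m ^ 2 * finrank ℝ (U m) ≤ E * (τ ^ 3) ^ m) :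
    ∃ μ : Measure K, IsProbabilityMeasure μ ∧ ∀ w : ℕ → K, (∀ m, w m ∈ U m) →
      (Summable fun m => ‖w m‖) → (Summable fun m => ‖w m‖ ^ 2 / l m ^ 2) →
      Measure.QuasiMeasurePreserving (· + ∑' m, w m) μ μ := by
  let f := fun m => stdOrthonormalBasis ℝ (U m)
  let P : Measure ((Σ m, Fin (finrank ℝ (U m))) → ℝ) :=
    Measure.infinitePi fun _ => gaussianReal 0 1
  obtain ⟨B, hB⟩ : ∃ B : ℕ → ((Σ m, Fin (finrank ℝ (U m))) → ℝ) → K,
    ∀ m ω, B m ω = l m • ∑ i, ω ⟨m, i⟩ • (f m i : K) := ⟨_, fun _ _ => rfl⟩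
  have h1 : ∀ m ω, ‖B m ω‖ ^ 2 = l m ^ 2 * ∑ i, ω ⟨m, i⟩ ^ 2 := fun m ω => by
    rw [hB, norm_smul, mul_pow, Real.norm_eq_abs, sq_abs]
    congr 1
    exact norm_sq_sum ((f m).orthonormal.comp_linearIsometry (U m).subtypeₗᵢ) _ _
  have g1 : ∀ i, Integrable (fun ω => ω i ^ 2) P := fun i =>
    (measurePreserving_eval_infinitePi (fun _ => gaussianReal 0 1) i).integrable_comp_of_integrable
      (memLp_id_gaussianReal' 2 (by simp)).integrable_sq
  have g2 : ∀ i, ∫ ω, ω i ^ 2 ∂P = 1 := fun i => by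
    have a1 := variance_fun_id_gaussianReal (μ := 0) (v := 1)
    rw [variance_eq_integral measurable_id'.aemeasurable] at a1
    simp only [integral_id_gaussianReal, sub_zero, NNReal.coe_one] at a1
    rw [← Measure.infinitePi_map_eval (fun _ => gaussianReal 0 1) i,
      integral_map (measurable_pi_apply i).aemeasurable (by fun_prop)] at a1
    exact a1
  have h2 : ∀ᵐ ω ∂P, Summable fun m => ‖B m ω‖ := by
    have a1 := All.ae_tendsto (μ := P)
      (F := fun m ω => ((τ ^ 2)⁻¹) ^ m * l m ^ 2 * ∑ i, ω ⟨m, i⟩ ^ 2)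
      (fun m => (integrable_finsetSum _ fun i _ => g1 _).const_mul _) (fun m ω => by positivity)
      (Summable.of_nonneg_of_le (fun m => integral_nonneg fun ω => by positivity) (fun m => ?_)
        ((summable_geometric_of_lt_one hτ.le hτ1).mul_left E))
    · filter_upwards [a1] with ω hω
      refine Summable.of_norm_bounded_eventually_nat
        (summable_geometric_of_lt_one hτ.le hτ1) ?_
      filter_upwards [hω.eventually (ge_mem_nhds zero_lt_one)] with m hm
      rw [mul_assoc, ← h1, inv_pow, ← pow_mul, mul_comm 2, pow_mul,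
        inv_mul_le_iff₀ (by positivity), mul_one] at hm
      rw [norm_norm]
      exact (pow_le_pow_iff_left₀ (norm_nonneg _) (by positivity) two_ne_zero).1 hm
    · rw [integral_const_mul, integral_finsetSum _ fun i _ => g1 _]
      simp only [g2, Finset.sum_const, Finset.card_univ, Fintype.card_fin, nsmul_eq_mul, mul_one]
      rw [mul_assoc]
      refine (mul_le_mul_of_nonneg_left (hE m) (by positivity)).trans (le_of_eq ?_)
      rw [mul_left_comm, ← mul_pow]
      congr 2
      field_simp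
  obtain ⟨Y, h3, h4⟩ : ∃ Y : ((Σ m, Fin (finrank ℝ (U m))) → ℝ) → K, Measurable Y ∧
      ∀ ω, (Summable fun m => ‖B m ω‖) → Y ω = ∑' m, B m ω :=
    ⟨fun ω => limUnder atTop fun M => ∑ m ∈ Finset.range M, B m ω,
      (StronglyMeasurable.limUnder (l := atTop) (f := fun M ω => ∑ m ∈ Finset.range M, B m ω)
        fun M => Measurable.stronglyMeasurable (by
          simp only [hB]
          fun_prop)).measurable,
      fun ω hω => hω.of_norm.hasSum.tendsto_sum_nat.limUnder_eq⟩
  refine ⟨P.map Y, Measure.isProbabilityMeasure_map h3.aemeasurable, fun w w1 w2 w3 => ?_⟩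
  obtain ⟨h, h5, h6⟩ : ∃ h : (Σ m, Fin (finrank ℝ (U m))) → ℝ, (Summable fun i => h i ^ 2) ∧
      ∀ m ω, B m (ω + h) = B m ω + w m := by
    refine ⟨fun i => ⟪f i.1 i.2, (⟨w i.1, w1 i.1⟩ : U i.1)⟫ / l i.1,
      (summable_sigma_of_nonneg fun _ => sq_nonneg _).2 ⟨fun m => Summable.of_finite,
        w3.congr fun m => ?_⟩, fun m ω => ?_⟩
    · simp only [tsum_fintype, div_pow]
      rw [← Finset.sum_div]
      exact congrArg (· / l m ^ 2) ((f m).sum_sq_inner_right ⟨w m, w1 m⟩).symm
    · have a1 := congrArg (fun x : U m => (x : K)) ((f m).sum_repr' ⟨w m, w1 m⟩)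
      simp only [Submodule.coe_sum, Submodule.coe_smul] at a1
      simp only [hB, Pi.add_apply, add_smul, Finset.sum_add_distrib, smul_add]
      congr 1
      rw [Finset.smul_sum]
      refine Eq.trans (Finset.sum_congr rfl fun i _ => ?_) a1
      rw [smul_smul, mul_div_cancel₀ _ (hl m).ne']
  refine ⟨measurable_add_const _, Measure.AbsolutelyContinuous.mk fun S hS h0 => ?_⟩
  rw [Measure.map_apply h3 hS] at h0
  rw [Measure.map_apply (measurable_add_const _) hS,
    Measure.map_apply h3 (measurable_add_const _ hS)]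
  refine measure_mono_null (fun ω hω => ?_)
    (measure_union_null ((shift_qmp h5).preimage_null h0) (ae_iff.1 h2))
  refine or_iff_not_imp_right.2 fun a1 => ?_
  have a2 : Summable fun m => ‖B m ω‖ := not_not.1 a1
  change Y (ω + h) ∈ S
  rw [h4 _ (Summable.of_nonneg_of_le (fun _ => norm_nonneg _)
    (fun m => (h6 m ω).symm ▸ norm_add_le _ _) (a2.add w2))]
  simp only [h6]
  rw [a2.of_norm.tsum_add w2.of_norm, ← h4 ω a2]
  exact hω

end Pool.Agent.Lib.MP_5ea425_an.Sharp
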