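import Pool.Agent.Lib.MP_5ea425_an.Sharp.Neg

/-!
Haar null sets: Aronszajn null sets of a Hilbert space are Haar null, and the obstruction below
`2 (k + α)` coordinates holds for Haar null sets.
-/

set_option autoImplicit false

open MeasureTheory Filter Topology Module

namespace Pool.Agent.Lib.MP_5ea425_an

/-- Haar null sets. -/
def HaarNull {X : Type*} [NormedAddCommGroup X] [MeasurableSpace X] (A : Set X) : Prop :=
  MeasurableSet A ∧ ∃ μ : Measure X, IsProbabilityMeasure μ ∧ ∀ x : X, μ ((fun a => a + x) '' A) = 0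

namespace Sharp

theorem haar_ae {X : Type*} [NormedAddCommGroup X] [MeasurableSpace X] {A : Set X} {μ : Measure X}
    (h : ∀ x : X, μ ((fun a => a + x) '' A) = 0) (x : X) : ∀ᵐ w ∂μ, w + x ∉ A := by
  have h1 := h (-x)
  rw [Set.image_add_right, neg_neg] at h1
  exact measure_eq_zero_iff_ae_notMem.1 h1

theorem two_tests {X Ω : Type*} [NormedAddCommGroup X] [SecondCountableTopology X]
    [MeasurableSpace X] [BorelSpace X] [MeasurableSpace Ω] (m : Measure Ω) [SFinite m] {Φ : Ω → X}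
    (hΦ : Measurable Φ) {A B : Set X} (hA : HaarNull A) (hB : HaarNull B) :
    ∃ w, ∀ᵐ p ∂m, w + Φ p ∉ A ∧ w + Φ p ∉ B := by
  obtain ⟨a1, μ, a2, a3⟩ := hA
  obtain ⟨b1, ν, b2, b3⟩ := hB
  have h1 : ∀ x, ∀ᵐ q ∂μ.prod ν, q.1 + q.2 + x ∉ A ∧ q.1 + q.2 + x ∉ B := fun x => by
    have c1 : Measurable fun q : X × X => q.1 + q.2 + x := by fun_prop
    refine ((Measure.ae_prod_iff_ae_ae (c1 a1.compl)).2 ((Measure.ae_ae_comm
      (p := fun w w' => w + w' + x ∈ Aᶜ) (c1 a1.compl)).2 (Eventually.of_forall fun w' => ?_))).and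
      ((Measure.ae_prod_iff_ae_ae (c1 b1.compl)).2 (Eventually.of_forall fun w => ?_))
    · filter_upwards [haar_ae a3 (w' + x)] with w h
      rwa [← add_assoc] at h
    · filter_upwards [haar_ae b3 (w + x)] with w' h
      rwa [← add_assoc, add_comm w'] at h
  have c2 : Measurable fun q : Ω × X × X => q.2.1 + q.2.2 + Φ q.1 := by fun_prop
  obtain ⟨q, hq⟩ := ((Measure.ae_ae_comm (μ := m) (ν := μ.prod ν)
    (p := fun p q => q.1 + q.2 + Φ p ∉ A ∧ q.1 + q.2 + Φ p ∉ B)
    ((c2 a1.compl).inter (c2 b1.compl))).1 (Eventually.of_forall fun p => h1 (Φ p))).exists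
  exact ⟨_, hq⟩

theorem haar_of_lines {X : Type*} [NormedAddCommGroup X] [NormedSpace ℝ X]
    [SecondCountableTopology X] [MeasurableSpace X] [BorelSpace X] {x : ℕ → X} (hx : DenseRange x)
    (μ : Measure X) [IsProbabilityMeasure μ]
    (hμ : ∀ (m : ℕ) (t : ℝ), Measure.QuasiMeasurePreserving (· + t • x m) μ μ) {A : Set X}
    (hA : AronszajnNull A) : HaarNull A := by
  obtain ⟨B, b1, b3, b2⟩ := hA.2 x (hx.mono Submodule.subset_span)
  refine ⟨hA.1, μ, inferInstance, fun z => ?_⟩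
  rw [Set.image_add_right, b3, Set.preimage_iUnion]
  refine measure_iUnion_null fun m => measure_eq_zero_iff_ae_notMem.2 ?_
  obtain ⟨t, ht⟩ := ((Measure.ae_ae_comm (μ := μ) (ν := (volume : Measure ℝ))
    (p := fun w t => w + -z + t • x m ∉ B m)
    (Continuous.measurable (f := fun q : X × ℝ => q.1 + -z + q.2 • x m) (by fun_prop)
      (b1 m).compl)).1
    (Eventually.of_forall fun p => measure_eq_zero_iff_ae_notMem.1 (b2 m _))).exists
  filter_upwards [(hμ m (-t)).ae ht] with w hw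
  rwa [add_right_comm w, neg_smul, neg_add_cancel_right] at hw

theorem haar_of_aron {H : Type*} [NormedAddCommGroup H] [InnerProductSpace ℝ H] [CompleteSpace H]
    [TopologicalSpace.SeparableSpace H] [MeasurableSpace H] [BorelSpace H] {A : Set H}
    (hA : AronszajnNull A) : HaarNull A := by
  haveI := UniformSpace.secondCountable_of_separable H
  obtain ⟨x, hx⟩ := TopologicalSpace.exists_dense_seq H
  obtain ⟨μ, m1, m2, -⟩ := law (K := H) (v := fun _ : Unit => 0) (Q := ∅) (C := 0) (D := 0)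
    (r := 1 / 2) (q := 1) le_rfl le_rfl (by norm_num) le_rfl (by norm_num)
    (fun m => ⟨⊥, inferInstance, by simp, fun _ h => h.elim⟩) x
  exact haar_of_lines hx μ m2 hA

variable {H K : Type*} [NormedAddCommGroup H] [NormedSpace ℝ H] [MeasurableSpace H] [BorelSpace H]
  [SecondCountableTopology H] [NormedAddCommGroup K] [NormedSpace ℝ K] [SecondCountableTopology K]
  [MeasurableSpace K] [BorelSpace K] {n : ℕ}

theorem contra (π : H →L[ℝ] (Fin n → ℝ)) (σ : (Fin n → ℝ) →L[ℝ] H) (j : K →L[ℝ] H)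
    (P : H →L[ℝ] K) (h1 : ∀ x, σ (π x) + j (P x) = x) (h2 : ∀ y, π (j y) = 0)
    (h3 : ∀ c, π (σ c) = c) {u : (Fin n → ℝ) → H} (μ : Measure K) [IsProbabilityMeasure μ]
    (m3 : ∀ c ∈ Set.univ.pi fun _ : Fin n => Set.Ico (0 : ℝ) 1,
      Measure.QuasiMeasurePreserving (· + P (u c)) μ μ)
    (T : H ≃ H) {L : NNReal} (hL : LipschitzWith L T.symm) (hT : ∀ x, T x = x + u (π x))
    {A : Set H} (hA : HaarNull A) (hA' : HaarNull (T '' A)ᶜ) : False := by
  obtain ⟨w, hw⟩ := two_tests ((volume : Measure (Fin n → ℝ)).prod μ)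
    (Φ := fun p => σ p.1 + j p.2) (Continuous.measurable (by fun_prop)) hA hA'
  have a0 : ∀ᵐ c, ∀ᵐ y ∂μ, σ c + j (P w + y) ∉ A ∧ σ c + j (P w + y) ∉ (T '' A)ᶜ := by
    filter_upwards [(measurePreserving_add_left volume (-π w)).quasiMeasurePreserving.ae
      (Measure.ae_ae_of_ae_prod hw)] with c hc
    have e : ∀ y, w + (σ (-π w + c) + j y) = σ c + j (P w + y) := fun y => by
      rw [map_add, map_add, map_neg]
      nth_rw 1 [← h1 w]
      abel
    simpa only [e] using hc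
  have a1 : ∀ᵐ c, ∀ᵐ y ∂μ, σ c + j (P w + y) ∉ A := a0.mono fun c h => h.mono fun y h => h.1
  have a2 : ∀ᵐ c, ∀ᵐ y ∂μ, σ c + j (P w + y) ∉ (T '' A)ᶜ := a0.mono fun c h => h.mono fun y h => h.2
  have a3 := ((π.lipschitz.comp hL).comp σ.lipschitz).hausdorffMeasure_image_le
    (d := Fintype.card (Fin n)) (Nat.cast_nonneg _) {c | ¬ ∀ᵐ y ∂μ, σ c + j (P w + y) ∉ (T '' A)ᶜ}
  rw [hausdorffMeasure_pi_real, ae_iff.1 a2, mul_zero, nonpos_iff_eq_zero,
    measure_eq_zero_iff_ae_notMem] at a3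
  have a4 : ∀ c y, T (σ c + j y) = σ (c + π (u c)) + j (y + P (u c)) := fun c y => by
    rw [hT, map_add π, h3, h2, add_zero, map_add, map_add, add_add_add_comm, h1]
  have a5 : volume (Set.univ.pi fun _ : Fin n => Set.Ico (0 : ℝ) 1) ≠ 0 := by
    simp [volume_pi_pi]
  obtain ⟨c, c1, c2, c3⟩ := Measure.exists_mem_of_measure_ne_zero_of_ae a5
    (ae_restrict_of_ae (a1.and a3))
  have c4 : ∀ᵐ y ∂μ, σ (c + π (u c)) + j (P w + y) ∉ (T '' A)ᶜ := by
    by_contra h
    refine c3 ⟨_, h, ?_⟩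
    have b1 := a4 c (-P (u c))
    rw [neg_add_cancel, map_zero, add_zero] at b1
    change π (T.symm (σ (c + π (u c)))) = c
    rw [← b1, T.symm_apply_apply, map_add, h3, h2, add_zero]
  obtain ⟨y, y1, y2⟩ := (c2.and ((m3 c c1).ae c4)).exists
  refine y1 (T.injective.mem_set_image.1 ?_)
  rw [a4, add_assoc]
  exact not_not.1 y2

theorem neg_haar {H : Type*} [NormedAddCommGroup H] [InnerProductSpace ℝ H] [CompleteSpace H]
    [TopologicalSpace.SeparableSpace H] [MeasurableSpace H] [BorelSpace H] {k : ℕ} {α : ℝ}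
    (hα : 0 ≤ α) (hn : n < 2 * (k + α)) (π : H →L[ℝ] (Fin n → ℝ)) (hπ : Function.Surjective π)
    {u : (Fin n → ℝ) → H} (hu : ContDiff ℝ k u) {C : ℝ}
    (hC : ∀ c c', ‖c‖ ≤ 1 → ‖c'‖ ≤ 1 →
      ‖iteratedFDeriv ℝ k u c - iteratedFDeriv ℝ k u c'‖ ≤ C * ‖c - c'‖ ^ α)
    (T : H ≃ H) {L : NNReal} (hL : LipschitzWith L T.symm) (hT : ∀ x, T x = x + u (π x))
    {A : Set H} (hA : HaarNull A) (hA' : HaarNull (T '' A)ᶜ) : False := by
  obtain ⟨σ, hσ⟩ := π.exists_rightInverse_of_surjective (LinearMap.range_eq_top.2 hπ)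
  have h3 : ∀ c, π (σ c) = c := fun c => congrArg (· c) hσ
  haveI := UniformSpace.secondCountable_of_separable H
  haveI : CompleteSpace π.ker := π.isClosed_ker.completeSpace_coe
  borelize ↥π.ker
  obtain ⟨P, hP⟩ : ∃ P : H →L[ℝ] π.ker, ∀ x, σ (π x) + π.ker.subtypeL (P x) = x :=
    ⟨(ContinuousLinearMap.id ℝ H - σ.comp π).codRestrict π.ker fun x => by simp [h3],
      fun x => by simp⟩
  obtain ⟨D, hD, hV⟩ := widths hu hα (abs_nonneg C) fun c c' hc hc' => (hC c c' hc hc').trans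
    (mul_le_mul_of_nonneg_right (le_abs_self C) (by positivity))
  obtain ⟨μ, m1, -, m3⟩ := law (v := fun c => P (u c))
    (Q := Set.univ.pi fun _ : Fin n => Set.Ico (0 : ℝ) 1) (C := ‖P‖ * |C|) (by positivity) hD
    (r := (1 / 2) ^ (k + α)) (by positivity) (q := 2 ^ n) (one_le_pow₀ one_le_two) (by
      rw [← Real.rpow_mul_natCast (by norm_num), one_div, Real.inv_rpow two_pos.le,
        inv_mul_lt_iff₀ (by positivity), mul_one, ← Real.rpow_natCast]
      exact Real.rpow_lt_rpow_of_exponent_lt one_lt_two (by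
        push_cast
        linarith)) (fun m => by
      obtain ⟨V, a1, a2, a3⟩ := hV m
      refine ⟨V.map P.toLinearMap, inferInstance,
        (Nat.cast_le.2 (Submodule.finrank_map_le _ _)).trans a2, fun c hc => ?_⟩
      obtain ⟨z, a4, a5⟩ := a3 c hc
      exact ⟨P z, Submodule.mem_map_of_mem a4, by
        rw [← map_sub, mul_assoc]
        exact P.le_opNorm_of_le a5⟩) fun _ => 0
  exact contra π σ π.ker.subtypeL P hP (fun y => y.2) h3 μ m3 T hL hT hA hA'

end Sharp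

end Pool.Agent.Lib.MP_5ea425_an
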