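import Mathlib

/-!
Base eight cells and digits in `ℝ^n`, and an orthogonality estimate for sums of mean zero
functions of the digits.
-/

set_option autoImplicit false

open MeasureTheory Filter Topology

namespace Pool.Agent.Lib.MP_5ea425_an.Sharp

variable {n : ℕ}

/-- The cell of level `m` that contains a point. -/
noncomputable def fl (m : ℕ) (c : Fin n → ℝ) : Fin n → ℤ := fun r => ⌊8 ^ m * c r⌋

/-- Quotient and remainder by eight in each coordinate. -/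
def dm (n : ℕ) : (Fin n → ℤ) ≃ (Fin n → ℤ) × (Fin n → Fin 8) :=
  (Equiv.piCongrRight fun _ => Int.divModEquiv 8).trans (Equiv.arrowProdEquivProdArrow _ _ _)

/-- The position of a point among the subcells of its cell of level `m`. -/
noncomputable def dig (m : ℕ) (c : Fin n → ℝ) : Fin n → Fin 8 := (dm n (fl (m + 1) c)).2

theorem dm_fl (m : ℕ) (c : Fin n → ℝ) : (dm n (fl (m + 1) c)).1 = fl m c := by
  funext r
  change ⌊8 ^ (m + 1) * c r⌋ / ((8 : ℕ) : ℤ) = ⌊8 ^ m * c r⌋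
  rw [← Int.floor_div_natCast]
  congr 1
  push_cast
  ring

theorem fl_succ (m : ℕ) (c : Fin n → ℝ) (r : Fin n) :
    fl (m + 1) c r = fl m c r * 8 + (dig m c r : ℕ) := by
  have h := congrFun ((dm n).symm_apply_apply (fl (m + 1) c)) r
  rw [← dm_fl m c, ← h]
  rfl

theorem fl_zero (m : ℕ) (c : Fin n → ℝ) : (fun r => fl m c r / ((8 ^ m : ℕ) : ℤ)) = fl 0 c := by
  funext r
  change ⌊8 ^ m * c r⌋ / ((8 ^ m : ℕ) : ℤ) = ⌊8 ^ 0 * c r⌋
  rw [← Int.floor_div_natCast]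
  congr 1
  push_cast
  field_simp

theorem measurable_fl (m : ℕ) : Measurable (fl (n := n) m) :=
  measurable_pi_lambda _ fun r => Int.measurable_floor.comp (by fun_prop)

theorem measurable_dig (m : ℕ) : Measurable (dig (n := n) m) :=
  (measurable_of_countable fun i => (dm n i).2).comp (measurable_fl (m + 1))

theorem lint_fl (m : ℕ) (F : (Fin n → ℤ) → ℝ) :
    ∫⁻ c, ENNReal.ofReal (F (fl m c)) = ∑' j, ENNReal.ofReal (F j * ((1 / 8) ^ n) ^ m) := by
  rw [← lintegral_map (measurable_of_countable fun j => ENNReal.ofReal (F j)) (measurable_fl m),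
    lintegral_countable']
  refine tsum_congr fun j => ?_
  have h0 : (0 : ℝ) < 8 ^ m := by positivity
  rw [Measure.map_apply (measurable_fl m) (measurableSet_singleton j),
    show fl m ⁻¹' {j} = Set.univ.pi fun r => Set.Ico ((j r : ℝ) / 8 ^ m) ((j r + 1) / 8 ^ m) by
      ext c
      simp only [Set.mem_preimage, Set.mem_singleton_iff, funext_iff, fl, Int.floor_eq_iff,
        Set.mem_univ_pi, Set.mem_Ico, div_le_iff₀' h0, lt_div_iff₀' h0],
    Real.volume_pi_Ico, ENNReal.ofReal_mul' (by positivity)]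
  congr 1
  simp only [← sub_div, add_sub_cancel_left, Finset.prod_const, Finset.card_univ, Fintype.card_fin]
  rw [← ENNReal.ofReal_pow (by positivity), ← pow_mul, mul_comm n, pow_mul, one_div_pow 8 m]

theorem md_step {ρ : (Fin n → Fin 8) → ℝ} (h0 : ∑ d, ρ d = 0) (h1 : ∀ d, ρ d ^ 2 ≤ 1) (m : ℕ)
    (F G : (Fin n → ℤ) → ℝ) :
    ∫⁻ c, ENNReal.ofReal ((F (fl m c) + ρ (dig m c) * G (fl m c)) ^ 2) ≤
      (∫⁻ c, ENNReal.ofReal (F (fl m c) ^ 2)) + ∫⁻ c, ENNReal.ofReal (G (fl m c) ^ 2) := by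
  have h2 := lint_fl (m + 1) fun i => (F (dm n i).1 + ρ (dm n i).2 * G (dm n i).1) ^ 2
  simp only [dm_fl] at h2
  rw [lint_fl m fun j => F j ^ 2, lint_fl m fun j => G j ^ 2, ← ENNReal.tsum_add]
  refine (h2.trans (((dm n).tsum_eq fun p => ENNReal.ofReal ((F p.1 + ρ p.2 * G p.1) ^ 2 *
    ((1 / 8) ^ n) ^ (m + 1))).trans ENNReal.tsum_prod')).trans_le
    (ENNReal.tsum_le_tsum fun j => ?_)
  rw [tsum_fintype, ← ENNReal.ofReal_sum_of_nonneg fun _ _ => by positivity,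
    ← ENNReal.ofReal_add (by positivity) (by positivity), ← Finset.sum_mul, ← add_mul, pow_succ',
    ← mul_assoc]
  refine ENNReal.ofReal_le_ofReal (mul_le_mul_of_nonneg_right ?_ (by positivity))
  rw [one_div_pow, mul_one_div, div_le_iff₀ (by positivity)]
  refine (Finset.sum_le_sum (g := fun d => F j ^ 2 + G j ^ 2 + 2 * F j * G j * ρ d)
    fun d _ => ?_).trans (le_of_eq ?_)
  · nlinarith [mul_le_mul_of_nonneg_right (h1 d) (sq_nonneg (G j))]
  · rw [Finset.sum_add_distrib, ← Finset.mul_sum, h0]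
    simp [mul_comm, add_mul]

theorem md {ρ : (Fin n → Fin 8) → ℝ} (h0 : ∑ d, ρ d = 0) (h1 : ∀ d, ρ d ^ 2 ≤ 1)
    (G : ℕ → (Fin n → ℤ) → ℝ) (M : ℕ) :
    ∫⁻ c, ENNReal.ofReal ((∑ m ∈ Finset.range M, ρ (dig m c) * G m (fl m c)) ^ 2) ≤
      ∑ m ∈ Finset.range M, ∑' j, ENNReal.ofReal (G m j ^ 2 * ((1 / 8) ^ n) ^ m) := by
  have h2 : ∀ M, ∃ F : (Fin n → ℤ) → ℝ, ∀ c,
      ∑ m ∈ Finset.range M, ρ (dig m c) * G m (fl m c) = F (fl M c) := fun M => by
    induction M with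
    | zero => exact ⟨fun _ => 0, fun _ => rfl⟩
    | succ M ih =>
      obtain ⟨F, hF⟩ := ih
      exact ⟨fun i => F (dm n i).1 + ρ (dm n i).2 * G M (dm n i).1, fun c => by
        rw [Finset.sum_range_succ, hF, ← dm_fl]
        rfl⟩
  induction M with
  | zero => simp
  | succ M ih =>
    obtain ⟨F, hF⟩ := h2 M
    simp only [Finset.sum_range_succ, hF] at ih ⊢
    exact (md_step h0 h1 M F (G M)).trans (add_le_add ih (lint_fl M fun j => G M j ^ 2).le)

theorem measurable_md (ρ : (Fin n → Fin 8) → ℝ) (G : ℕ → (Fin n → ℤ) → ℝ) (M : ℕ) :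
    Measurable fun c => ∑ m ∈ Finset.range M, ρ (dig m c) * G m (fl m c) :=
  Finset.measurable_fun_sum _ fun m _ => ((measurable_of_countable ρ).comp (measurable_dig m)).mul
    ((measurable_of_countable (G m)).comp (measurable_fl m))

theorem ae_zero {α : Type*} [MeasurableSpace α] {μ : Measure α} {S : ℕ → α → ℝ}
    (hS : ∀ l, Measurable (S l)) {C : ℝ} (hC : 0 ≤ C)
    (h : ∀ l, ∫⁻ c, ENNReal.ofReal (S l c ^ 2) ∂μ ≤ ENNReal.ofReal (C * (1 / 2) ^ l)) :
    ∀ᵐ c ∂μ, Tendsto (fun l => S l c) atTop (𝓝 0) := by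
  have h0 : ∀ l, Measurable fun c => ENNReal.ofReal (S l c ^ 2) := fun l =>
    ((hS l).pow_const 2).ennreal_ofReal
  have h1 : ∫⁻ c, ∑' l, ENNReal.ofReal (S l c ^ 2) ∂μ ≠ ⊤ := by
    rw [lintegral_tsum fun l => (h0 l).aemeasurable]
    refine ne_top_of_le_ne_top ?_ (ENNReal.tsum_le_tsum h)
    rw [← ENNReal.ofReal_tsum_of_nonneg (fun l => by positivity)
      (summable_geometric_two.mul_left C)]
    exact ENNReal.ofReal_ne_top
  filter_upwards [ae_lt_top' (AEMeasurable.tsum fun l => (h0 l).aemeasurable) h1] with c hc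
  have h2 := (Real.continuous_sqrt.tendsto _).comp
    ((ENNReal.tendsto_toReal ENNReal.zero_ne_top).comp
      (ENNReal.tendsto_atTop_zero_of_tsum_ne_top hc.ne))
  rw [ENNReal.toReal_zero, Real.sqrt_zero] at h2
  refine (tendsto_zero_iff_abs_tendsto_zero _).2 (h2.congr fun l => ?_)
  simp only [Function.comp_apply]
  rw [ENNReal.toReal_ofReal (sq_nonneg _), Real.sqrt_sq_eq_abs]

theorem ae_freq (d : Fin n → Fin 8) : ∀ᵐ c : Fin n → ℝ, Tendsto (fun l : ℕ =>
    (∑ m ∈ Finset.range (16 ^ l), if dig m c = d then (1 : ℝ) else 0) / 16 ^ l) atTop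
      (𝓝 ((1 / 8) ^ n)) := by
  have p0 : (0 : ℝ) < (1 / 8) ^ n := by positivity
  have p1 : (1 / 8 : ℝ) ^ n ≤ 1 := pow_le_one₀ (by norm_num) (by norm_num)
  obtain ⟨ρ, hρ⟩ : ∃ ρ : (Fin n → Fin 8) → ℝ, ∀ x, ρ x = (if x = d then 1 else 0) - (1 / 8) ^ n :=
    ⟨_, fun _ => rfl⟩
  obtain ⟨G, hG⟩ : ∃ G : (Fin n → ℤ) → ℕ → ℕ → (Fin n → ℤ) → ℝ, ∀ j₀ l m j, G j₀ l m j =
    if (fun r => j r / ((8 ^ m : ℕ) : ℤ)) = j₀ then 1 / 16 ^ l else 0 := ⟨_, fun _ _ _ _ => rfl⟩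
  have h0 : ∀ j₀ l m, ∑' j, ENNReal.ofReal (G j₀ l m j ^ 2 * ((1 / 8) ^ n) ^ m) =
      ENNReal.ofReal ((1 / 16 ^ l) ^ 2) := fun j₀ l m => by
    rw [← lint_fl m fun j => G j₀ l m j ^ 2]
    simp only [hG, fl_zero]
    rw [lint_fl 0 fun j => (if j = j₀ then (1 : ℝ) / 16 ^ l else 0) ^ 2,
      tsum_eq_single j₀ fun j hj => by simp [hj]]
    simp
  have h1 : ∀ j₀, ∀ᵐ c : Fin n → ℝ, Tendsto (fun l : ℕ => ∑ m ∈ Finset.range (16 ^ l),
      ρ (dig m c) * G j₀ l m (fl m c)) atTop (𝓝 0) := fun j₀ => by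
    refine ae_zero (fun l => measurable_md ρ (G j₀ l) (16 ^ l)) zero_le_one fun l =>
      (md (by simp [hρ]) (fun x => ?_) _ _).trans ?_
    · rw [hρ]
      split_ifs <;> nlinarith
    · simp only [h0]
      rw [Finset.sum_const, Finset.card_range, nsmul_eq_mul, ← ENNReal.ofReal_natCast,
        ← ENNReal.ofReal_mul (Nat.cast_nonneg _)]
      refine ENNReal.ofReal_le_ofReal ?_
      push_cast
      rw [sq, ← mul_assoc, mul_one_div_cancel (by positivity), one_mul, one_mul, ← one_div_pow]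
      exact pow_le_pow_left₀ (by norm_num) (by norm_num) _
  filter_upwards [ae_all_iff.2 h1] with c hc
  have h2 := (hc (fl 0 c)).add_const ((1 / 8 : ℝ) ^ n)
  rw [zero_add] at h2
  refine h2.congr fun l => ?_
  simp only [hG, hρ, fl_zero, if_true]
  rw [← Finset.sum_mul, Finset.sum_sub_distrib, Finset.sum_const, Finset.card_range, nsmul_eq_mul]
  push_cast
  field_simp
  ring

end Pool.Agent.Lib.MP_5ea425_an.Sharp
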