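import Mathlib

/-!
The image of the unit cube under a map of class `C^k` with Hoelder continuous derivative of order
`k` is close to subspaces of small dimension.
-/

set_option autoImplicit false

open Module

namespace Pool.Agent.Lib.MP_5ea425_an.Sharp

variable {K : Type*} [NormedAddCommGroup K] [NormedSpace ℝ K] [CompleteSpace K] {n k : ℕ}

theorem taylor {v : (Fin n → ℝ) → K} (hv : ContDiff ℝ k v) (V : Submodule ℝ K) {p y : Fin n → ℝ}
    {b : ℝ} (hb : ∀ t ∈ Set.Icc (0 : ℝ) 1,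
      ‖iteratedFDeriv ℝ k v (p + t • y) - iteratedFDeriv ℝ k v p‖ ≤ b)
    (hV : ∀ i ≤ k, iteratedFDeriv ℝ i v p (fun _ => y) ∈ V) :
    ∃ z ∈ V, ‖v (p + y) - z‖ ≤ b * ‖y‖ ^ k := by
  have hb0 : 0 ≤ b := (norm_nonneg _).trans (hb 0 (by simp))
  have h1 : ∀ t ∈ Set.Icc (0 : ℝ) 1, ‖iteratedFDeriv ℝ k v (p + t • y) (fun _ => y) -
      iteratedFDeriv ℝ k v p (fun _ => y)‖ ≤ b * ‖y‖ ^ k := fun t ht => by
    rw [← ContinuousMultilinearMap.sub_apply]
    refine (ContinuousMultilinearMap.le_opNorm _ _).trans ?_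
    rw [Finset.prod_const, Finset.card_univ, Fintype.card_fin]
    exact mul_le_mul_of_nonneg_right (hb t ht) (by positivity)
  rcases k with _ | k
  · exact ⟨_, hV 0 le_rfl, by simpa using h1 1 (by simp)⟩
  have h2 := map_add_eq_sum_add_integral_iteratedFDeriv (f := v) (x := p) (y := y)
    (n := k) fun t _ => by exact_mod_cast hv.contDiffAt
  have h3 : Continuous fun t : ℝ => iteratedFDeriv ℝ (k + 1) v (p + t • y) fun _ => y :=
    ((hv.continuous_iteratedFDeriv (m := k + 1) le_rfl).comp (by fun_prop)).eval_const _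
  refine ⟨∑ i ∈ Finset.range (k + 1), (i.factorial : ℝ)⁻¹ • iteratedFDeriv ℝ i v p (fun _ => y) +
    (k.factorial : ℝ)⁻¹ • ∫ t in (0 : ℝ)..1, (1 - t) ^ k • iteratedFDeriv ℝ (k + 1) v p fun _ => y,
    V.add_mem (V.sum_mem fun i hi => V.smul_mem _ (hV i (Finset.mem_range.1 hi).le))
      (V.smul_mem _ ?_), ?_⟩
  · rw [intervalIntegral.integral_smul_const]
    exact V.smul_mem _ (hV _ le_rfl)
  · rw [h2, add_sub_add_left_eq_sub, ← smul_sub, ← intervalIntegral.integral_sub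
      (Continuous.intervalIntegrable (by fun_prop) _ _)
      (Continuous.intervalIntegrable (by fun_prop) _ _), norm_smul, ← one_mul (b * _)]
    refine mul_le_mul ?_ ((intervalIntegral.norm_integral_le_of_norm_le_const
      (C := b * ‖y‖ ^ (k + 1)) fun t ht => ?_).trans (by simp)) (norm_nonneg _) zero_le_one
    · rw [Real.norm_of_nonneg (by positivity)]
      exact inv_le_one_of_one_le₀ (by exact_mod_cast k.factorial_pos)
    · rw [Set.uIoc_of_le zero_le_one] at ht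
      rw [← smul_sub, norm_smul, ← one_mul (b * _)]
      refine mul_le_mul ?_ (h1 t ⟨ht.1.le, ht.2⟩) (norm_nonneg _) zero_le_one
      rw [norm_pow, Real.norm_of_nonneg (sub_nonneg.2 ht.2)]
      exact pow_le_one₀ (sub_nonneg.2 ht.2) (sub_le_self _ ht.1.le)

theorem widths {v : (Fin n → ℝ) → K} (hv : ContDiff ℝ k v) {α C : ℝ} (hα : 0 ≤ α) (hC0 : 0 ≤ C)
    (hC : ∀ c c', ‖c‖ ≤ 1 → ‖c'‖ ≤ 1 →
      ‖iteratedFDeriv ℝ k v c - iteratedFDeriv ℝ k v c'‖ ≤ C * ‖c - c'‖ ^ α) :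
    ∃ D : ℝ, 0 ≤ D ∧ ∀ m : ℕ, ∃ V : Submodule ℝ K, FiniteDimensional ℝ V ∧
      (finrank ℝ V : ℝ) ≤ D * (2 ^ n) ^ m ∧ ∀ c ∈ Set.univ.pi fun _ : Fin n => Set.Ico (0 : ℝ) 1,
        ∃ z ∈ V, ‖v c - z‖ ≤ C * ((1 / 2) ^ (k + α)) ^ m := by
  refine ⟨Fintype.card (Σ i : Fin (k + 1), Fin i → Fin n), Nat.cast_nonneg _, fun m => ?_⟩
  let p : (Fin n → Fin (2 ^ m)) → Fin n → ℝ := fun j r => ((j r : ℕ) : ℝ) / 2 ^ m
  let g : (Fin n → Fin (2 ^ m)) × (Σ i : Fin (k + 1), Fin i → Fin n) → K := fun x =>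
    iteratedFDeriv ℝ x.2.1 v (p x.1) fun a => Pi.single (x.2.2 a) 1
  refine ⟨Submodule.span ℝ (Set.range g), FiniteDimensional.span_of_finite ℝ (Set.finite_range g),
    ?_, fun c hc => ?_⟩
  · have h1 : finrank ℝ (Submodule.span ℝ (Set.range g)) ≤ _ := finrank_range_le_card (R := ℝ) g
    rw [Fintype.card_prod, Fintype.card_fun, Fintype.card_fin, Fintype.card_fin, mul_comm,
      ← pow_mul, mul_comm m n, pow_mul] at h1
    exact_mod_cast h1
  · have h0 : ∀ r, 0 ≤ c r ∧ c r < 1 := fun r => hc r trivial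
    have h2 : (0 : ℝ) < 2 ^ m := by positivity
    let j : Fin n → Fin (2 ^ m) := fun r => ⟨⌊2 ^ m * c r⌋₊,
      (Nat.floor_lt (mul_nonneg h2.le (h0 r).1)).2 (by
        push_cast
        exact mul_lt_of_lt_one_right h2 (h0 r).2)⟩
    have h3 : ∀ r, 0 ≤ p j r ∧ p j r ≤ c r ∧ c r - p j r ≤ (1 / 2) ^ m := fun r => by
      refine ⟨by positivity, (div_le_iff₀' h2).2 (Nat.floor_le (mul_nonneg h2.le (h0 r).1)), ?_⟩
      have a1 := Nat.lt_floor_add_one (2 ^ m * c r)
      change c r - (⌊2 ^ m * c r⌋₊ : ℝ) / 2 ^ m ≤ _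
      rw [one_div_pow, sub_le_iff_le_add, ← add_div, le_div_iff₀' h2]
      linarith
    have h4 : ‖c - p j‖ ≤ (1 / 2) ^ m := (pi_norm_le_iff_of_nonneg (by positivity)).2 fun r => by
      rw [Pi.sub_apply, Real.norm_of_nonneg (sub_nonneg.2 (h3 r).2.1)]
      exact (h3 r).2.2
    have h5 : ∀ t ∈ Set.Icc (0 : ℝ) 1, ‖p j + t • (c - p j)‖ ≤ 1 := fun t ht =>
      (pi_norm_le_iff_of_nonneg zero_le_one).2 fun r => by
        obtain ⟨a1, a2, -⟩ := h3 r
        have a3 := mul_nonneg ht.1 (sub_nonneg.2 a2)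
        have a4 := mul_le_of_le_one_left (sub_nonneg.2 a2) ht.2
        simp only [Pi.add_apply, Pi.smul_apply, Pi.sub_apply, smul_eq_mul]
        rw [Real.norm_of_nonneg (by linarith)]
        linarith [(h0 r).2]
    obtain ⟨z, z1, z2⟩ := taylor hv (Submodule.span ℝ (Set.range g)) (p := p j) (y := c - p j)
      (b := C * ((1 / 2) ^ m) ^ α) (fun t ht => (hC _ _ (h5 t ht) (by simpa using h5 0)).trans
        (mul_le_mul_of_nonneg_left (Real.rpow_le_rpow (norm_nonneg _) (by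
          rw [add_sub_cancel_left, norm_smul, Real.norm_of_nonneg ht.1]
          exact (mul_le_of_le_one_left (norm_nonneg _) ht.2).trans h4) hα) hC0)) fun i hi => by
        rw [show (fun _ : Fin i => c - p j) = fun _ => ∑ r, (c - p j) r • Pi.single r (1 : ℝ) from
          funext fun _ => pi_eq_sum_univ' _, ContinuousMultilinearMap.map_sum]
        refine Submodule.sum_mem _ fun b _ => ?_
        rw [ContinuousMultilinearMap.map_smul_univ]
        exact Submodule.smul_mem _ _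
          (Submodule.subset_span ⟨(j, ⟨⟨i, Nat.lt_succ_of_le hi⟩, b⟩), rfl⟩)
    rw [add_sub_cancel] at z2
    refine ⟨z, z1, z2.trans ((mul_le_mul_of_nonneg_left (pow_le_pow_left₀ (norm_nonneg _) h4 k)
      (by positivity)).trans (le_of_eq ?_))⟩
    rw [← Real.rpow_pow_comm (by norm_num), ← pow_mul, mul_comm m k, pow_mul, mul_assoc, ← mul_pow,
      Real.rpow_add (by norm_num), Real.rpow_natCast, mul_comm ((1 / 2 : ℝ) ^ k)]

end Pool.Agent.Lib.MP_5ea425_an.Sharp
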