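import Pool.Agent.Lib.MP_5ea425_an.Sharp.Gauss
import Pool.Agent.Lib.MP_5ea425_an.Sharp.Wid
import Pool.Agent.Lib.MP_5ea425_an.Null

/-!
With fewer than `2 (k + α)` coordinates no map `x ↦ x + u (π x)` with `u` of class `C^(k, α)`
carries an Aronszajn null set onto a set with Aronszajn null complement.
-/

set_option autoImplicit false

open MeasureTheory Filter Topology Module

namespace Pool.Agent.Lib.MP_5ea425_an.Sharp

theorem law {K ι : Type*} [NormedAddCommGroup K] [InnerProductSpace ℝ K] [CompleteSpace K]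
    [SecondCountableTopology K] [MeasurableSpace K] [BorelSpace K] {v : ι → K} {Q : Set ι}
    {C D r q : ℝ} (hC : 0 ≤ C) (hD : 0 ≤ D) (h6 : 0 < r) (h7 : 1 ≤ q) (h4 : r ^ 2 * q < 1)
    (h : ∀ m : ℕ, ∃ V : Submodule ℝ K, FiniteDimensional ℝ V ∧ (finrank ℝ V : ℝ) ≤ D * q ^ m ∧
      ∀ c ∈ Q, ∃ z ∈ V, ‖v c - z‖ ≤ C * r ^ m) (d : ℕ → K) :
    ∃ μ : Measure K, IsProbabilityMeasure μ ∧
      (∀ (m : ℕ) (t : ℝ), Measure.QuasiMeasurePreserving (· + t • d m) μ μ) ∧
      ∀ c ∈ Q, Measure.QuasiMeasurePreserving (· + v c) μ μ := by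
  choose V h1 h2 h3 using h
  have h5 : r < 1 := by nlinarith [mul_le_mul_of_nonneg_left h7 (sq_nonneg r)]
  obtain ⟨τ, t1, t2, t3⟩ : ∃ τ : ℝ, 0 < τ ∧ τ < 1 ∧ τ ^ 5 = r ^ 2 * q :=
    ⟨(r ^ 2 * q) ^ (((5 : ℕ) : ℝ)⁻¹), by positivity,
      Real.rpow_lt_one (by positivity) h4 (by norm_num),
      Real.rpow_inv_natCast_pow (by positivity) (by norm_num)⟩
  obtain ⟨μ, h8, h9⟩ := gauss (fun m => (V m ⊔ V (m + 1)) ⊔ Submodule.span ℝ {d m})
    (fun m => r ^ m * τ⁻¹ ^ m) (fun m => by positivity) (E := D + D * q + 1) t1 t2 fun m => by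
      have a1 := (Submodule.finrank_add_le_finrank_add_finrank (V m ⊔ V (m + 1))
        (Submodule.span ℝ {d m})).trans (add_le_add
          (Submodule.finrank_add_le_finrank_add_finrank (V m) (V (m + 1)))
          (finrank_span_le_card ({d m} : Set K)))
      rw [Set.toFinset_singleton, Finset.card_singleton, ← Nat.cast_le (α := ℝ)] at a1
      push_cast at a1
      have a2 := h2 (m + 1)
      rw [pow_succ] at a2
      have a3 : (finrank ℝ ↥((V m ⊔ V (m + 1)) ⊔ Submodule.span ℝ {d m}) : ℝ) ≤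
          (D + D * q + 1) * q ^ m := by linarith [h2 m, one_le_pow₀ (n := m) h7]
      refine (mul_le_mul_of_nonneg_left a3 (by positivity)).trans ?_
      rw [mul_left_comm, ← mul_pow, ← pow_mul, mul_comm m, pow_mul, ← mul_pow, mul_pow r,
        mul_right_comm, ← t3]
      refine le_of_eq ?_
      congr 2
      field_simp
  have h10 : ∀ m, ∀ y ∈ (V m ⊔ V (m + 1)) ⊔ Submodule.span ℝ {d m},
      Measure.QuasiMeasurePreserving (· + y) μ μ := fun m y hy => by
    have a1 := h9 (fun i => if i = m then y else 0) (fun i => by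
      split_ifs with hi
      exacts [hi ▸ hy, Submodule.zero_mem _])
      (summable_of_ne_finset_zero (s := {m}) fun i hi => by
        rw [if_neg (Finset.notMem_singleton.1 hi), norm_zero])
      (summable_of_ne_finset_zero (s := {m}) fun i hi => by
        rw [if_neg (Finset.notMem_singleton.1 hi), norm_zero, sq, zero_mul, zero_div])
    rwa [tsum_ite_eq] at a1
  refine ⟨μ, h8, fun m t => h10 m _ (Submodule.mem_sup_right (Submodule.smul_mem _ _
    (Submodule.mem_span_singleton_self _))), fun c hc => ?_⟩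
  choose z z1 z2 using fun m => h3 m c hc
  have z3 : ∀ m, ‖z (m + 1) - z m‖ ≤ 2 * C * r ^ m := fun m => by
    have a1 := norm_sub_le (v c - z m) (v c - z (m + 1))
    rw [sub_sub_sub_cancel_left] at a1
    have a2 : C * r ^ (m + 1) ≤ C * r ^ m :=
      mul_le_mul_of_nonneg_left (pow_le_pow_of_le_one h6.le h5.le m.le_succ) hC
    linarith [z2 m, z2 (m + 1)]
  have z4 := Summable.of_nonneg_of_le (fun _ => norm_nonneg _) z3
    ((summable_geometric_of_lt_one h6.le h5).mul_left _)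
  have z5 : ∑' m, (z (m + 1) - z m) = v c - z 0 := by
    have a1 := z4.of_norm.hasSum.tendsto_sum_nat
    simp only [Finset.sum_range_sub] at a1
    refine tendsto_nhds_unique a1 (Tendsto.sub_const (tendsto_iff_norm_sub_tendsto_zero.2
      (squeeze_zero (fun _ => norm_nonneg _) (fun m => (norm_sub_rev _ _).trans_le (z2 m)) ?_)) _)
    simpa using (tendsto_pow_atTop_nhds_zero_of_lt_one h6.le h5).const_mul C
  have z6 := h9 (fun m => z (m + 1) - z m) (fun m => Submodule.mem_sup_left (Submodule.sub_mem _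
    (Submodule.mem_sup_right (z1 _)) (Submodule.mem_sup_left (z1 _)))) z4
    (Summable.of_nonneg_of_le (fun _ => by positivity) (fun m => by
      rw [div_le_iff₀ (by positivity)]
      refine (pow_le_pow_left₀ (norm_nonneg _) (z3 m) 2).trans (le_of_eq ?_)
      rw [← pow_mul, mul_comm 2 m, pow_mul, inv_pow]
      field_simp)
      ((summable_geometric_of_lt_one (r := τ ^ 2) (by positivity)
        (pow_lt_one₀ t1.le t2 two_ne_zero)).mul_left ((2 * C) ^ 2)))
  rw [z5] at z6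
  have z7 := (h10 0 _ (Submodule.mem_sup_left (Submodule.mem_sup_left (z1 0)))).comp z6
  simpa [Function.comp_def, add_assoc] using z7

variable {H K : Type*} [NormedAddCommGroup H] [NormedSpace ℝ H] [MeasurableSpace H] [BorelSpace H]
  [NormedAddCommGroup K] [InnerProductSpace ℝ K] [CompleteSpace K] [SecondCountableTopology K]
  [MeasurableSpace K] [BorelSpace K] {n : ℕ}

theorem null_prod (π : H →L[ℝ] (Fin n → ℝ)) (σ : (Fin n → ℝ) →L[ℝ] H) (j : K →L[ℝ] H)
    (P : H →L[ℝ] K) (h1 : ∀ x, σ (π x) + j (P x) = x) {x : ℕ → H} (hx : DenseRange x)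
    (μ : Measure K) [IsProbabilityMeasure μ]
    (hμ : ∀ (m : ℕ) (t : ℝ), Measure.QuasiMeasurePreserving (· + t • P (x m)) μ μ) {A : Set H}
    (hA : AronszajnNull A) : ∀ᵐ c, ∀ᵐ y ∂μ, σ c + j y ∉ A := by
  obtain ⟨B, b1, rfl, b2⟩ := hA.2 x (hx.mono Submodule.subset_span)
  refine Measure.ae_ae_of_ae_prod (p := fun p : (Fin n → ℝ) × K => σ p.1 + j p.2 ∉ ⋃ m, B m) ?_
  simp only [Set.mem_iUnion, not_exists]
  refine ae_all_iff.2 fun m => ?_
  obtain ⟨t, ht⟩ := ((Measure.ae_ae_comm (μ := (volume : Measure (Fin n → ℝ)).prod μ)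
    (ν := (volume : Measure ℝ)) (p := fun p t => σ p.1 + j p.2 + t • x m ∉ B m)
    (Continuous.measurable (f := fun q : ((Fin n → ℝ) × K) × ℝ => σ q.1.1 + j q.1.2 + q.2 • x m)
      (by fun_prop) (b1 m).compl)).1
    (Eventually.of_forall fun p => measure_eq_zero_iff_ae_notMem.1 (b2 m _))).exists
  filter_upwards [(QuasiMeasurePreserving.prodMap (measurePreserving_add_right volume
    (-t • π (x m))).quasiMeasurePreserving (hμ m (-t))).ae ht] with p hp
  rwa [Prod.map_fst, Prod.map_snd, map_add, map_add, map_smul, map_smul, add_add_add_comm,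
    ← smul_add, h1, neg_smul, neg_add_cancel_right] at hp

theorem neg_core [TopologicalSpace.SeparableSpace H] [CompleteSpace H] {k : ℕ} {α : ℝ}
    (hα : 0 ≤ α) (hn : n < 2 * (k + α)) (π : H →L[ℝ] (Fin n → ℝ)) (σ : (Fin n → ℝ) →L[ℝ] H)
    (j : K →L[ℝ] H) (P : H →L[ℝ] K) (h1 : ∀ x, σ (π x) + j (P x) = x) (h2 : ∀ y, π (j y) = 0)
    (h3 : ∀ c, π (σ c) = c) {u : (Fin n → ℝ) → H} (hu : ContDiff ℝ k u) {C : ℝ}
    (hC : ∀ c c', ‖c‖ ≤ 1 → ‖c'‖ ≤ 1 →
      ‖iteratedFDeriv ℝ k u c - iteratedFDeriv ℝ k u c'‖ ≤ C * ‖c - c'‖ ^ α)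
    (T : H ≃ H) {L : NNReal} (hL : LipschitzWith L T.symm) (hT : ∀ x, T x = x + u (π x))
    {A : Set H} (hA : AronszajnNull A) (hA' : AronszajnNull (T '' A)ᶜ) : False := by
  obtain ⟨x, hx⟩ := TopologicalSpace.exists_dense_seq H
  obtain ⟨D, hD, hV⟩ := widths hu hα (abs_nonneg C) fun c c' hc hc' => (hC c c' hc hc').trans
    (mul_le_mul_of_nonneg_right (le_abs_self C) (by positivity))
  obtain ⟨μ, m1, m2, m3⟩ := law (v := fun c => P (u c))
    (Q := Set.univ.pi fun _ : Fin n => Set.Ico (0 : ℝ) 1) (C := ‖P‖ * |C|) (by positivity) hD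
    (r := (1 / 2) ^ (k + α)) (by positivity) (q := 2 ^ n) (one_le_pow₀ one_le_two) (by
      rw [← Real.rpow_mul_natCast (by norm_num), one_div, Real.inv_rpow two_pos.le,
        inv_mul_lt_iff₀ (by positivity), mul_one, ← Real.rpow_natCast]
      exact Real.rpow_lt_rpow_of_exponent_lt one_lt_two (by
        push_cast
        linarith)) (fun m => by
      obtain ⟨V, a1, a2, a3⟩ := hV m
      refine ⟨V.map P.toLinearMap, inferInstance,
        (Nat.cast_le.2 (Submodule.finrank_map_le _ _)).trans a2, fun c hc => ?_⟩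
      obtain ⟨z, a4, a5⟩ := a3 c hc
      exact ⟨P z, Submodule.mem_map_of_mem a4, by
        rw [← map_sub, mul_assoc]
        exact P.le_opNorm_of_le a5⟩) fun m => P (x m)
  have a1 := null_prod π σ j P h1 hx μ m2 hA
  have a2 := null_prod π σ j P h1 hx μ m2 hA'
  have a3 := ((π.lipschitz.comp hL).comp σ.lipschitz).hausdorffMeasure_image_le
    (d := Fintype.card (Fin n)) (Nat.cast_nonneg _) {c | ¬ ∀ᵐ y ∂μ, σ c + j y ∉ (T '' A)ᶜ}
  rw [hausdorffMeasure_pi_real, ae_iff.1 a2, mul_zero, nonpos_iff_eq_zero,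
    measure_eq_zero_iff_ae_notMem] at a3
  have a4 : ∀ c y, T (σ c + j y) = σ (c + π (u c)) + j (y + P (u c)) := fun c y => by
    rw [hT, map_add π, h3, h2, add_zero, map_add, map_add, add_add_add_comm, h1]
  have a5 : volume (Set.univ.pi fun _ : Fin n => Set.Ico (0 : ℝ) 1) ≠ 0 := by
    simp [volume_pi_pi]
  obtain ⟨c, c1, c2, c3⟩ := Measure.exists_mem_of_measure_ne_zero_of_ae a5
    (ae_restrict_of_ae (a1.and a3))
  have c4 : ∀ᵐ y ∂μ, σ (c + π (u c)) + j y ∉ (T '' A)ᶜ := by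
    by_contra h
    refine c3 ⟨_, h, ?_⟩
    have b1 := a4 c (-P (u c))
    rw [neg_add_cancel, map_zero, add_zero] at b1
    change π (T.symm (σ (c + π (u c)))) = c
    rw [← b1, T.symm_apply_apply, map_add, h3, h2, add_zero]
  obtain ⟨y, y1, y2⟩ := (c2.and ((m3 c c1).ae c4)).exists
  refine y2 fun h => y1 (T.injective.mem_set_image.1 ?_)
  rw [a4]
  exact h

theorem neg {H : Type*} [NormedAddCommGroup H] [InnerProductSpace ℝ H] [CompleteSpace H]
    [TopologicalSpace.SeparableSpace H] [MeasurableSpace H] [BorelSpace H] {k : ℕ} {α : ℝ}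
    (hα : 0 ≤ α) (hn : n < 2 * (k + α)) (π : H →L[ℝ] (Fin n → ℝ)) (hπ : Function.Surjective π)
    {u : (Fin n → ℝ) → H} (hu : ContDiff ℝ k u) {C : ℝ}
    (hC : ∀ c c', ‖c‖ ≤ 1 → ‖c'‖ ≤ 1 →
      ‖iteratedFDeriv ℝ k u c - iteratedFDeriv ℝ k u c'‖ ≤ C * ‖c - c'‖ ^ α)
    (T : H ≃ H) {L : NNReal} (hL : LipschitzWith L T.symm) (hT : ∀ x, T x = x + u (π x))
    {A : Set H} (hA : AronszajnNull A) (hA' : AronszajnNull (T '' A)ᶜ) : False := by
  obtain ⟨σ, hσ⟩ := π.exists_rightInverse_of_surjective (LinearMap.range_eq_top.2 hπ)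
  have h3 : ∀ c, π (σ c) = c := fun c => congrArg (· c) hσ
  haveI := UniformSpace.secondCountable_of_separable H
  haveI : CompleteSpace π.ker := π.isClosed_ker.completeSpace_coe
  borelize ↥π.ker
  exact neg_core hα hn π σ π.ker.subtypeL
    ((ContinuousLinearMap.id ℝ H - σ.comp π).codRestrict π.ker fun x => by simp [h3])
    (fun x => by simp) (fun y => y.2) h3 hu hC T hL hT hA hA'

end Pool.Agent.Lib.MP_5ea425_an.Sharp
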