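import Pool.Agent.Lib.MP_5ea425_an.Sharp.MD
import Pool.Agent.Lib.MP_5ea425_an.All.Level

/-!
Orthonormal families in a subspace of finite codimension, derivatives of orthogonal sums, and the
value of a bump on the subcells of a cell.
-/

set_option autoImplicit false

open MeasureTheory Filter Topology
open scoped RealInnerProductSpace

namespace Pool.Agent.Lib.MP_5ea425_an.Sharp

open All

variable {H : Type*} [NormedAddCommGroup H] [InnerProductSpace ℝ H] {n : ℕ}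

theorem exists_on (hH : ¬ FiniteDimensional ℝ H) (π : H →L[ℝ] (Fin n → ℝ)) (ι : Type*)
    [Countable ι] : ∃ e : ι → H, Orthonormal ℝ e ∧ ∀ i, π (e i) = 0 := by
  haveI : Std.Symm fun x y : H => ⟪x, y⟫ = 0 := ⟨fun x y h => by rwa [real_inner_comm]⟩
  obtain ⟨f, h1, h2⟩ := exists_seq_of_forall_finset_exists' (fun x : H => ‖x‖ = 1 ∧ π x = 0)
    (fun x y : H => ⟪x, y⟫ = 0) fun s _ => by
      obtain ⟨y, a1, a2⟩ := Submodule.exists_mem_ne_zero_of_ne_bot (p := LinearMap.ker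
        (π.toLinearMap.prod (LinearMap.pi fun z : s => (innerSL ℝ (z : H)).toLinearMap)))
        fun h => hH (FiniteDimensional.of_injective _ (LinearMap.ker_eq_bot.1 h))
      have a3 : π y = 0 := congrArg Prod.fst a1
      have a4 : ∀ z : s, ⟪(z : H), y⟫ = 0 := fun z => congrFun (congrArg Prod.snd a1) z
      exact ⟨‖y‖⁻¹ • y, ⟨norm_smul_inv_norm (𝕜 := ℝ) a2, by rw [map_smul, a3, smul_zero]⟩,
        fun z hz => by rw [inner_smul_right, a4 ⟨z, hz⟩, mul_zero]⟩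
  obtain ⟨g, hg⟩ := exists_injective_nat ι
  exact ⟨f ∘ g, Orthonormal.comp ⟨fun i => (h1 i).1, h2⟩ g hg, fun i => (h1 _).2⟩

theorem orth_deriv {E : Type*} [NormedAddCommGroup E] [NormedSpace ℝ E] {W : E → H} {i : ℕ}
    (hW : ContDiff ℝ i W) {w : H} (h : ∀ c, ⟪w, W c⟫ = 0) (c : E) (t : Fin i → E) :
    ⟪w, iteratedFDeriv ℝ i W c t⟫ = 0 := by
  have h1 := (innerSL ℝ w).iteratedFDeriv_comp_left (x := c) hW.contDiffAt le_rfl
  rw [show innerSL ℝ w ∘ W = fun _ => 0 from funext h, iteratedFDeriv_fun_zero] at h1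
  exact (congrArg (· t) h1).symm

theorem orth_bound {E ι : Type*} [NormedAddCommGroup E] [NormedSpace ℝ E] (s : Finset ι)
    {W : ι → E → H} {i : ℕ} (hW : ∀ m, ContDiff ℝ i (W m))
    (h : ∀ m m', m ≠ m' → ∀ c c', ⟪W m c, W m' c'⟫ = 0) {b r : ℝ} (hb0 : 0 ≤ b) (hr0 : 0 ≤ r)
    (hr : (s.card : ℝ) = r ^ 2) (c : E) (hb : ∀ m, ‖iteratedFDeriv ℝ i (W m) c‖ ≤ b) :
    ‖iteratedFDeriv ℝ i (fun c => ∑ m ∈ s, W m c) c‖ ≤ r * b := by
  rw [iteratedFDeriv_fun_sum_apply fun m _ => (hW m).contDiffAt]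
  refine ContinuousMultilinearMap.opNorm_le_bound (by positivity) fun t => ?_
  refine (pow_le_pow_iff_left₀ (norm_nonneg _) (by positivity) two_ne_zero).1 ?_
  rw [ContinuousMultilinearMap.sum_apply, ← real_inner_self_eq_norm_sq, sum_inner, mul_assoc,
    mul_pow, ← hr, ← nsmul_eq_mul]
  refine Finset.sum_le_card_nsmul _ _ _ fun m hm => ?_
  rw [inner_sum, Finset.sum_eq_single_of_mem m hm fun m' _ hm' => orth_deriv (hW m') (fun c' => by
    rw [real_inner_comm]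
    exact orth_deriv (hW m) (fun c'' => h m' m hm' c' c'') c t) c t, real_inner_self_eq_norm_sq]
  exact pow_le_pow_left₀ (norm_nonneg _) ((ContinuousMultilinearMap.le_opNorm _ _).trans
    (mul_le_mul_of_nonneg_right (hb m) (by positivity))) 2

theorem cell (hn : 0 < n) (β : ContDiffBump (0 : Fin n → ℝ)) (h1 : β.rIn = 1 / 8)
    (h2 : β.rOut = 3 / 8) (m : ℕ) (c : Fin n → ℝ) :
    ((if dig m c = fun _ => 4 then 1 else 0) - if dig m c = fun _ => 0 then 1 else 0) *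
      β ((8 : ℝ) ^ m • (c - fun _ => 1 / (2 * 8 ^ m)) - cst (fl m c)) =
      if dig m c = fun _ => 4 then 1 else 0 := by
  have h3 : ∀ r, ((8 : ℝ) ^ m • (c - fun _ => 1 / (2 * 8 ^ m)) - cst (fl m c) : Fin n → ℝ) r =
      8 ^ m * c r - 1 / 2 - fl m c r := fun r => by
    simp only [Pi.sub_apply, Pi.smul_apply, smul_eq_mul, cst]
    field_simp
  have h4 : ∀ r, (fl m c r : ℝ) * 8 + (dig m c r : ℕ) ≤ 8 ^ m * 8 * c r ∧
      8 ^ m * 8 * c r < (fl m c r : ℝ) * 8 + (dig m c r : ℕ) + 1 := fun r => by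
    have a1 := Int.floor_eq_iff.1 (fl_succ m c r)
    rw [pow_succ] at a1
    exact_mod_cast a1
  split_ifs with a b b
  · exact absurd (congrFun (a.symm.trans b) ⟨0, hn⟩) (by decide)
  · rw [β.one_of_mem_closedBall (mem_closedBall_zero_iff.2 ?_), sub_zero, mul_one]
    rw [h1]
    refine (pi_norm_le_iff_of_nonneg (by norm_num)).2 fun r => ?_
    have a1 := h4 r
    rw [a] at a1
    rw [h3, Real.norm_eq_abs, abs_le]
    norm_num at a1
    constructor <;> linarith [a1.1, a1.2]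
  · rw [β.zero_of_le_dist, mul_zero]
    rw [h2, dist_zero_right]
    refine le_trans ?_ (norm_le_pi_norm _ ⟨0, hn⟩)
    have a1 := h4 ⟨0, hn⟩
    rw [b] at a1
    rw [h3, Real.norm_eq_abs, le_abs]
    norm_num at a1
    exact Or.inr (by linarith [a1.2])
  · rw [sub_zero, zero_mul]

theorem fl_mem {c : Fin n → ℝ} {l : ℕ} (h : ‖c‖ ≤ l) (m : ℕ) : fl m c ∈ box n (8 ^ m * l) := by
  refine Fintype.mem_piFinset.2 fun r => ?_
  have a1 := abs_le.1 ((norm_le_pi_norm c r).trans h)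
  have a2 : (0 : ℝ) < 8 ^ m := by positivity
  have a3 := Int.floor_le (8 ^ m * c r)
  have a4 := Int.lt_floor_add_one (8 ^ m * c r)
  rw [Finset.mem_Icc, ← Int.cast_le (R := ℝ), ← Int.cast_le (R := ℝ), fl]
  push_cast
  constructor <;> nlinarith [a1.1, a1.2]

theorem ae_test {b : ℕ → ℝ} (hb0 : ∀ m, 0 < b m) (hb : ∀ m, ((1 / 8) ^ n) ^ m ≤ b m ^ 2)
    {ρ : (Fin n → Fin 8) → ℝ} (h0 : ∑ d, ρ d = 0) (h1 : ∀ d, ρ d ^ 2 ≤ 1)
    {e : ℕ × ℕ × (Fin n → ℤ) → H} (he : Orthonormal ℝ e) (f : H) :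
    ∀ᵐ c : Fin n → ℝ, Tendsto (fun l : ℕ => ∑ m ∈ Finset.range (16 ^ l), ρ (dig m c) *
      (⟪e (l, m, fl m c), f⟫ / ((1 / 8) ^ l * b m * 16 ^ l))) atTop (𝓝 0) := by
  refine ae_zero (fun l => measurable_md ρ (fun m j => ⟪e (l, m, j), f⟫ /
    ((1 / 8) ^ l * b m * 16 ^ l)) _) (sq_nonneg ‖f‖) fun l =>
      (md h0 h1 (fun m j => ⟪e (l, m, j), f⟫ / ((1 / 8) ^ l * b m * 16 ^ l)) _).trans ?_
  have h2 : Orthonormal ℝ fun p : ℕ × (Fin n → ℤ) => e (l, p) :=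
    he.comp (fun p : ℕ × (Fin n → ℤ) => (l, p)) (Prod.mk_right_injective l)
  refine (Finset.sum_le_sum (g := fun m => ∑' j, ENNReal.ofReal (‖⟪e (l, m, j), f⟫‖ ^ 2 *
    (1 / 2) ^ l)) fun m _ => ENNReal.tsum_le_tsum fun j => ENNReal.ofReal_le_ofReal ?_).trans
    ((ENNReal.sum_le_tsum _).trans ?_)
  · have := hb0 m
    rw [div_pow, div_mul_eq_mul_div, mul_div_assoc, Real.norm_eq_abs, sq_abs]
    refine mul_le_mul_of_nonneg_left ?_ (sq_nonneg _)
    rw [div_le_iff₀ (by positivity), mul_right_comm, ← mul_pow, mul_pow _ _ 2, ← mul_assoc,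
      ← pow_mul _ l, mul_comm l, pow_mul, ← mul_pow]
    exact (hb m).trans (le_mul_of_one_le_left (by positivity) (one_le_pow₀ (by norm_num)))
  · rw [← ENNReal.tsum_prod' (f := fun p : ℕ × (Fin n → ℤ) => ENNReal.ofReal
      (‖⟪e (l, p), f⟫‖ ^ 2 * (1 / 2) ^ l)), ← ENNReal.ofReal_tsum_of_nonneg (fun _ => by positivity)
      ((h2.inner_products_summable f).mul_right _), tsum_mul_right]
    exact ENNReal.ofReal_le_ofReal (mul_le_mul_of_nonneg_right (h2.tsum_inner_products_le f)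
      (by positivity))

theorem interp {E F : Type*} [NormedAddCommGroup E] [NormedSpace ℝ E] [NormedAddCommGroup F]
    [NormedSpace ℝ F] {W : E → F} {k : ℕ} (hW : ContDiff ℝ (k + 1 : ℕ) W) {A L α : ℝ} (hA : 0 ≤ A)
    (hL : 0 < L) (h0 : 0 ≤ α) (h1 : α ≤ 1) (h2 : ∀ c, ‖iteratedFDeriv ℝ k W c‖ ≤ A * L⁻¹ ^ α)
    (h3 : ∀ c, ‖iteratedFDeriv ℝ (k + 1) W c‖ ≤ A * L⁻¹ ^ α * L) (c c' : E) :
    ‖iteratedFDeriv ℝ k W c - iteratedFDeriv ℝ k W c'‖ ≤ 2 * A * ‖c - c'‖ ^ α := by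
  have h4 : ‖c - c'‖ ^ α = L⁻¹ ^ α * (L * ‖c - c'‖) ^ α := by
    rw [← Real.mul_rpow (by positivity) (by positivity), inv_mul_cancel_left₀ hL.ne']
  have h5 : 0 ≤ A * L⁻¹ ^ α := by positivity
  rw [h4]
  rcases le_total (L * ‖c - c'‖) 1 with h | h
  · have a1 := convex_univ.norm_image_sub_le_of_norm_fderiv_le (𝕜 := ℝ)
      (fun x _ => hW.differentiable_iteratedFDeriv (m := k) (by exact_mod_cast k.lt_succ_self) x)
      (fun x _ => norm_fderiv_iteratedFDeriv.trans_le (h3 x)) (Set.mem_univ c') (Set.mem_univ c)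
    have a2 := mul_le_mul_of_nonneg_left (Real.self_le_rpow_of_le_one (by positivity) h h1) h5
    have a3 : 0 ≤ A * L⁻¹ ^ α * (L * ‖c - c'‖) ^ α := by positivity
    linarith
  · have a1 := norm_sub_le (iteratedFDeriv ℝ k W c) (iteratedFDeriv ℝ k W c')
    have a2 := mul_le_mul_of_nonneg_left (Real.one_le_rpow h h0) h5
    linarith [h2 c, h2 c']

end Pool.Agent.Lib.MP_5ea425_an.Sharp
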